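import Mathlib
import Pool.Agent.Helper26.PolySep.Cert
import Pool.Agent.Helper26.PolySep.Trunc

/-!
# Total separability of simple polytopes: definitions for the lower bounds

`Cert d` (helper26) is a combinatorial certificate of a simple `d`-polytope: index type `W` of the
nodes, index type `ι` of the inequalities, `T w` the inequalities tight at `w`, `Cert.Adj` the
adjacency of nodes, `Cert.nb w i` the neighbour of `w` which leaves the inequality `i`.
-/

namespace Pool.Agent.Helper13.TSL

open Set Pool.Agent.Helper70.Poly Pool.Agent.Helper26.PolySep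

/-- `k` labels are separated by a set `M` of at most `n` nodes, and `M` contains a set `A` of `a`
nodes each of which has at most `r` neighbours outside `M`. -/
def St (d n k a r : ℕ) : Prop :=
  ∃ (D : Cert d) (M A : Set D.W) (lab : D.W → ℕ), M.Nonempty ∧ M.ncard ≤ n ∧ A ⊆ M ∧
    A.ncard = a ∧ (∀ x y, D.Adj x y → x ∉ M → y ∉ M → lab x = lab y) ∧
    (∀ c < k, ∃ x, x ∉ M ∧ lab x = c) ∧ ∀ x ∈ A, {y | D.Adj x y ∧ y ∉ M}.ncard ≤ r

/-- `k` labels are separated by a set `M` of exactly `n` nodes. -/
def Pd (d n k : ℕ) : Prop :=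
  ∃ (D : Cert d) (M : Set D.W) (lab : D.W → ℕ), M.ncard = n ∧
    (∀ x y, D.Adj x y → x ∉ M → y ∉ M → lab x = lab y) ∧
    ∀ c < k, ∃ x, x ∉ M ∧ lab x = c

/-- there is a certificate with `N` nodes and a proper colouring with `q` colours -/
def Good (d q N : ℕ) : Prop :=
  ∃ D : Cert d, Nat.card D.W = N ∧ ∃ col : D.W → ZMod q, ∀ x y, D.Adj x y → col x ≠ col y

end Pool.Agent.Helper13.TSL
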