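import Mathlib
import Pool.Agent.Helper13.TSL.Defs

/-!
# TSL-P1: products
-/

namespace Pool.Agent.Helper13.TSL

open Set Pool.Agent.Helper70.Poly Pool.Agent.Helper26.PolySep

private lemma p1_fst {d₁ d₂ : ℕ} (x : Fin d₁ → ℝ) (y : Fin d₂ → ℝ) :
    LinearMap.funLeft ℝ ℝ (Fin.castAdd d₂) (Fin.append x y) = x := by
  funext i
  simp [LinearMap.funLeft_apply]

private lemma p1_snd {d₁ d₂ : ℕ} (x : Fin d₁ → ℝ) (y : Fin d₂ → ℝ) :
    LinearMap.funLeft ℝ ℝ (Fin.natAdd d₁) (Fin.append x y) = y := by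
  funext i
  simp [LinearMap.funLeft_apply]

/-- the product certificate -/
private noncomputable def p1Cert {d₁ d₂ : ℕ} (D₁ : Cert d₁) (D₂ : Cert d₂) :
    Cert (d₁ + d₂) where
  ι := D₁.ι ⊕ D₂.ι
  W := D₁.W × D₂.W
  finW := by
    have := D₁.finW
    have := D₂.finW
    infer_instance
  ne := by
    have := D₁.ne
    have := D₂.ne
    infer_instance
  a := Sum.elim (fun i => (D₁.a i).comp (LinearMap.funLeft ℝ ℝ (Fin.castAdd d₂)))
    (fun j => (D₂.a j).comp (LinearMap.funLeft ℝ ℝ (Fin.natAdd d₁)))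
  b := Sum.elim D₁.b D₂.b
  p w := Fin.append (D₁.p w.1) (D₂.p w.2)
  T w := (D₁.T w.1).disjSum (D₂.T w.2)
  pinj := by
    rintro ⟨x, y⟩ ⟨x', y'⟩ h
    simp only at h
    have h1 := congrArg (LinearMap.funLeft ℝ ℝ (Fin.castAdd d₂)) h
    have h2 := congrArg (LinearMap.funLeft ℝ ℝ (Fin.natAdd d₁)) h
    rw [p1_fst, p1_fst] at h1
    rw [p1_snd, p1_snd] at h2
    exact Prod.ext (D₁.pinj h1) (D₂.pinj h2)
  le := by
    rintro ⟨x, y⟩ (i | j)
    · simp only [Sum.elim_inl, LinearMap.comp_apply, p1_fst]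
      exact D₁.le x i
    · simp only [Sum.elim_inr, LinearMap.comp_apply, p1_snd]
      exact D₂.le y j
  tight := by
    rintro ⟨x, y⟩ (i | j)
    · simp only [Sum.elim_inl, LinearMap.comp_apply, p1_fst, Finset.inl_mem_disjSum]
      exact D₁.tight x i
    · simp only [Sum.elim_inr, LinearMap.comp_apply, p1_snd, Finset.inr_mem_disjSum]
      exact D₂.tight y j
  card := by
    rintro ⟨x, y⟩
    rw [Finset.card_disjSum, D₁.card, D₂.card]
  inj := by
    rintro ⟨x, y⟩ z hz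
    have h1 : LinearMap.funLeft ℝ ℝ (Fin.castAdd d₂) z = 0 := by
      refine D₁.inj x _ fun i hi => ?_
      have := hz (Sum.inl i) (Finset.inl_mem_disjSum.mpr hi)
      simpa only [Sum.elim_inl, LinearMap.comp_apply] using this
    have h2 : LinearMap.funLeft ℝ ℝ (Fin.natAdd d₁) z = 0 := by
      refine D₂.inj y _ fun i hi => ?_
      have := hz (Sum.inr i) (Finset.inr_mem_disjSum.mpr hi)
      simpa only [Sum.elim_inr, LinearMap.comp_apply] using this
    funext k
    refine Fin.addCases (fun i => ?_) (fun j => ?_) k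
    · exact congrFun h1 i
    · exact congrFun h2 j
  nbr := by
    rintro ⟨x, y⟩ (i | j) h
    · obtain ⟨w', hne, hw'⟩ := D₁.nbr x i (Finset.inl_mem_disjSum.mp h)
      refine ⟨(w', y), fun he => hne (Prod.ext_iff.mp he).1, ?_⟩
      rintro (i' | j') h' hne'
      · refine Finset.inl_mem_disjSum.mpr (hw' i' (Finset.inl_mem_disjSum.mp h') ?_)
        rintro rfl
        exact hne' rfl
      · exact Finset.inr_mem_disjSum.mpr (Finset.inr_mem_disjSum.mp h')
    · obtain ⟨w', hne, hw'⟩ := D₂.nbr y j (Finset.inr_mem_disjSum.mp h)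
      refine ⟨(x, w'), fun he => hne (Prod.ext_iff.mp he).2, ?_⟩
      rintro (i' | j') h' hne'
      · exact Finset.inl_mem_disjSum.mpr (Finset.inl_mem_disjSum.mp h')
      · refine Finset.inr_mem_disjSum.mpr (hw' j' (Finset.inr_mem_disjSum.mp h') ?_)
        rintro rfl
        exact hne' rfl

/-- The product of two certificates: nodes `D₁.W × D₂.W`, inequalities `D₁.ι ⊕ D₂.ι` (those of
`D₁` in the first `d₁` coordinates, those of `D₂` in the last `d₂` coordinates), the point of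
`(x, y)` is `Fin.append (p x) (p y)`, and `T (x, y)` is the disjoint union of `T x` and `T y`.
Adjacency: a tight inequality of one factor is left, so the other coordinate does not change
(`Cert.eq_of_subset`). -/
theorem exists_prod {d₁ d₂ : ℕ} (D₁ : Cert d₁) (D₂ : Cert d₂) :
    ∃ (D' : Cert (d₁ + d₂)) (f : D₁.W × D₂.W ≃ D'.W),
      ∀ x y, D'.Adj (f x) (f y) →
        (x.1 = y.1 ∧ D₂.Adj x.2 y.2) ∨ (D₁.Adj x.1 y.1 ∧ x.2 = y.2) := by
  refine ⟨p1Cert D₁ D₂, Equiv.refl _, ?_⟩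
  rintro ⟨x, y⟩ ⟨x', y'⟩ ⟨hne, i, hi, hT⟩
  have hT' : ∀ j ∈ (D₁.T x).disjSum (D₂.T y), j ≠ i → j ∈ (D₁.T x').disjSum (D₂.T y') := hT
  have hi' : i ∈ (D₁.T x).disjSum (D₂.T y) := hi
  have hne' : (x, y) ≠ (x', y') := hne
  rcases i with i | j
  · right
    have h2 : y' = y := D₂.eq_of_subset fun j hj =>
      Finset.inr_mem_disjSum.mp (hT' (Sum.inr j) (Finset.inr_mem_disjSum.mpr hj) (by simp))
    subst h2
    refine ⟨⟨fun h => hne' (Prod.ext h rfl), i, Finset.inl_mem_disjSum.mp hi', fun j hj hji => ?_⟩, rfl⟩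
    exact Finset.inl_mem_disjSum.mp (hT' (Sum.inl j) (Finset.inl_mem_disjSum.mpr hj)
      (fun h => hji (Sum.inl.inj h)))
  · left
    have h2 : x' = x := D₁.eq_of_subset fun i hi =>
      Finset.inl_mem_disjSum.mp (hT' (Sum.inl i) (Finset.inl_mem_disjSum.mpr hi) (by simp))
    subst h2
    refine ⟨rfl, fun h => hne' (Prod.ext rfl h), j, Finset.inr_mem_disjSum.mp hi', fun k hk hkj => ?_⟩
    exact Finset.inr_mem_disjSum.mp (hT' (Sum.inr k) (Finset.inr_mem_disjSum.mpr hk)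
      (fun h => hkj (Sum.inr.inj h)))

end Pool.Agent.Helper13.TSL
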