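import Mathlib
import Pool.Agent.Helper13.TSL.P1

/-!
# TSL-P2: coloured certificates
-/

namespace Pool.Agent.Helper13.TSL

open Set Pool.Agent.Helper70.Poly Pool.Agent.Helper26.PolySep

/-- The sum of the two colours is a proper colouring of the product. -/
theorem Good.prod {d₁ d₂ q N₁ N₂ : ℕ} (h₁ : Good d₁ q N₁) (h₂ : Good d₂ q N₂) :
    Good (d₁ + d₂) q (N₁ * N₂) := by
  obtain ⟨D₁, hc₁, col₁, hp₁⟩ := h₁
  obtain ⟨D₂, hc₂, col₂, hp₂⟩ := h₂
  obtain ⟨D', f, hf⟩ := exists_prod D₁ D₂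
  refine ⟨D', ?_, fun w => col₁ (f.symm w).1 + col₂ (f.symm w).2, ?_⟩
  · rw [Nat.card_congr f.symm, Nat.card_prod, hc₁, hc₂]
  · intro w w' hadj heq
    obtain ⟨x, rfl⟩ := f.surjective w
    obtain ⟨y, rfl⟩ := f.surjective w'
    simp only [Equiv.symm_apply_apply] at heq
    rcases hf x y hadj with ⟨h1, h2⟩ | ⟨h1, h2⟩
    · rw [h1] at heq
      exact hp₂ _ _ h2 (add_left_cancel heq)
    · rw [h2] at heq
      exact hp₁ _ _ h1 (add_right_cancel heq)

/-- The simplex `trunc s 0`, with nodes `TW s 0` (`s + 1` of them), coloured by its node number,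
which is injective modulo `q ≥ s + 1`. -/
theorem good_simplex {s q : ℕ} (h : s + 1 ≤ q) : Good s q (s + 1) := by
  have hd : ∀ w : TW s 0, w.1.1 = w.1.2 := by
    intro w
    rcases w.2 with h1 | h1
    · exact h1.1
    · exact absurd h1.2 (Nat.not_lt_zero _)
  have hinj : ∀ w w' : TW s 0, w.1.1 = w'.1.1 → w = w' := by
    intro w w' h1
    refine Subtype.ext (Prod.ext h1 ?_)
    rw [← hd w, ← hd w', h1]
  let e : TW s 0 ≃ Fin (s + 1) :=
    { toFun := fun w => w.1.1
      invFun := fun l => ⟨(l, l), Or.inl ⟨rfl, Nat.zero_le _⟩⟩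
      left_inv := fun w => hinj _ _ rfl
      right_inv := fun l => rfl }
  refine ⟨trunc s 0 (Nat.zero_le s), ?_, fun w : TW s 0 => ((w.1.1.val : ℕ) : ZMod q), ?_⟩
  · show Nat.card (TW s 0) = s + 1
    rw [Nat.card_congr e, Nat.card_eq_fintype_card, Fintype.card_fin]
  · intro w w' hadj heq
    refine hadj.1 (hinj w w' (Fin.ext ?_))
    have h1 := (ZMod.natCast_eq_natCast_iff' _ _ _).1 heq
    have h2 := (show TW s 0 from w).1.1.isLt
    have h3 := (show TW s 0 from w').1.1.isLt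
    rwa [Nat.mod_eq_of_lt (by omega), Nat.mod_eq_of_lt (by omega)] at h1

theorem good_pow {s q : ℕ} (h : s + 1 ≤ q) (t : ℕ) : Good (s * t) q ((s + 1) ^ t) := by
  induction t with
  | zero =>
    rw [Nat.mul_zero, pow_zero]
    exact good_simplex (s := 0) (by omega)
  | succ t ih =>
    rw [Nat.mul_succ, pow_succ]
    exact ih.prod (good_simplex h)

end Pool.Agent.Helper13.TSL
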