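import Mathlib
import Pool.Agent.Helper13.TSL.Defs

/-!
# TSL-T1: truncation of a vertex
-/

namespace Pool.Agent.Helper13.TSL

open Set Pool.Agent.Helper70.Poly Pool.Agent.Helper26.PolySep

section

variable {d : ℕ} (D : Cert d) (w₀ : D.W)

/-- the slack of the inequality `i` at the neighbour of `w₀` across `i` -/
private noncomputable def t1sl (i : D.T w₀) : ℝ := D.b i.1 - D.a i.1 (D.p (D.nb w₀ i))

private lemma t1sl_pos (i : D.T w₀) : 0 < t1sl D w₀ i := D.slack_nb_pos w₀ i

/-- the normalised total slack -/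
private noncomputable def t1sig (x : Fin d → ℝ) : ℝ :=
  ∑ i : D.T w₀, (D.b i.1 - D.a i.1 x) / t1sl D w₀ i

private lemma t1sig_pos {w : D.W} (hw : w ≠ w₀) : 0 < t1sig D w₀ (D.p w) := by
  have h0 : ∀ i : D.T w₀, 0 ≤ (D.b i.1 - D.a i.1 (D.p w)) / t1sl D w₀ i := fun i =>
    div_nonneg (by linarith [D.le w i.1]) (t1sl_pos D w₀ i).le
  refine lt_of_le_of_ne (Finset.sum_nonneg fun i _ => h0 i) fun h => hw ?_
  have h1 := (Finset.sum_eq_zero_iff_of_nonneg fun i _ => h0 i).mp h.symm
  apply D.pinj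
  refine D.eq_of_tight fun i hi => ?_
  have h2 := h1 ⟨i, hi⟩ (Finset.mem_univ _)
  have h3 := (t1sl_pos D w₀ ⟨i, hi⟩).ne'
  rcases div_eq_zero_iff.mp h2 with h4 | h4
  · simp only at h4
    linarith
  · exact absurd h4 h3

private lemma exists_t1delta : ∃ δ : ℝ, 0 < δ ∧ δ < 1 ∧ ∀ w, w ≠ w₀ → δ < t1sig D w₀ (D.p w) := by
  classical
  have := D.finW
  have : Fintype D.W := Fintype.ofFinite _
  by_cases hne : (Finset.univ.filter fun w : D.W => w ≠ w₀).Nonempty
  · obtain ⟨w1, hw1, hmin⟩ := Finset.exists_min_image _ (fun w => t1sig D w₀ (D.p w)) hne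
    have hw1' : w1 ≠ w₀ := (Finset.mem_filter.mp hw1).2
    have hpos := t1sig_pos D w₀ hw1'
    refine ⟨min (t1sig D w₀ (D.p w1) / 2) (1 / 2), lt_min (by linarith) (by norm_num),
      lt_of_le_of_lt (min_le_right _ _) (by norm_num), fun w hw => ?_⟩
    have := hmin w (Finset.mem_filter.mpr ⟨Finset.mem_univ _, hw⟩)
    have h2 := min_le_left (t1sig D w₀ (D.p w1) / 2) (1 / 2)
    linarith
  · refine ⟨1 / 2, by norm_num, by norm_num, fun w hw => ?_⟩
    exact absurd ⟨w, Finset.mem_filter.mpr ⟨Finset.mem_univ _, hw⟩⟩ hne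

/-- the new vertices -/
private noncomputable def t1pt (δ : ℝ) (i : D.T w₀) : Fin d → ℝ :=
  D.p w₀ + δ • (D.p (D.nb w₀ i) - D.p w₀)

private lemma slack_t1pt (δ : ℝ) (i : D.T w₀) (j : D.ι) :
    D.b j - D.a j (t1pt D w₀ δ i) =
      (1 - δ) * (D.b j - D.a j (D.p w₀)) + δ * (D.b j - D.a j (D.p (D.nb w₀ i))) := by
  rw [t1pt, map_add, map_smul, map_sub, smul_eq_mul]
  ring

private lemma slack_t1pt_self (δ : ℝ) (i : D.T w₀) :
    D.b i.1 - D.a i.1 (t1pt D w₀ δ i) = δ * t1sl D w₀ i := by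
  rw [slack_t1pt, (D.tight w₀ i.1).mpr i.2, t1sl]
  ring

private lemma slack_t1pt_of_ne (δ : ℝ) (i : D.T w₀) {j : D.ι} (hj : j ∈ D.T w₀) (hji : j ≠ i.1) :
    D.b j - D.a j (t1pt D w₀ δ i) = 0 := by
  rw [slack_t1pt, (D.tight w₀ j).mpr hj, (D.tight _ j).mpr (D.nb_mem w₀ i hj hji)]
  ring

private lemma t1sig_t1pt (δ : ℝ) (i : D.T w₀) : t1sig D w₀ (t1pt D w₀ δ i) = δ := by
  classical
  rw [t1sig, Finset.sum_eq_single i]
  · rw [slack_t1pt_self, mul_div_assoc, div_self (t1sl_pos D w₀ i).ne', mul_one]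
  · intro j _ hj
    rw [slack_t1pt_of_ne D w₀ δ i j.2 fun h => hj (Subtype.ext h), zero_div]
  · intro h
    exact absurd (Finset.mem_univ _) h

/-- the linear part of the new inequality -/
private noncomputable def t1a : (Fin d → ℝ) →ₗ[ℝ] ℝ :=
  ∑ i : D.T w₀, (t1sl D w₀ i)⁻¹ • D.a i.1

/-- the right hand side of the new inequality, before the shift -/
private noncomputable def t1b : ℝ := ∑ i : D.T w₀, (t1sl D w₀ i)⁻¹ * D.b i.1

private lemma t1a_apply (x : Fin d → ℝ) :
    t1a D w₀ x = ∑ i : D.T w₀, (t1sl D w₀ i)⁻¹ * D.a i.1 x := by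
  rw [t1a, LinearMap.sum_apply]
  rfl

private lemma t1b_sub (x : Fin d → ℝ) : t1b D w₀ - t1a D w₀ x = t1sig D w₀ x := by
  rw [t1a_apply, t1b, t1sig, ← Finset.sum_sub_distrib]
  refine Finset.sum_congr rfl fun i _ => ?_
  rw [div_eq_inv_mul]
  ring

open Classical in
/-- the new tight inequalities -/
private noncomputable def t1T : {w : D.W // w ≠ w₀} ⊕ D.T w₀ → Finset (Option D.ι)
  | Sum.inl w => (D.T w.1).map Function.Embedding.some
  | Sum.inr i => Finset.insertNone ((D.T w₀).erase i.1)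

private lemma some_mem_inl {w : {w : D.W // w ≠ w₀}} {j : D.ι} :
    some j ∈ t1T D w₀ (Sum.inl w) ↔ j ∈ D.T w.1 := by
  simp [t1T]

private lemma none_mem_inl {w : {w : D.W // w ≠ w₀}} : none ∉ t1T D w₀ (Sum.inl w) := by
  simp [t1T]

private lemma some_mem_inr {i : D.T w₀} {j : D.ι} :
    some j ∈ t1T D w₀ (Sum.inr i) ↔ j ≠ i.1 ∧ j ∈ D.T w₀ := by
  simp [t1T]

private lemma none_mem_inr {i : D.T w₀} : none ∈ t1T D w₀ (Sum.inr i) := by
  simp [t1T]

/-- the truncated certificate -/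
private noncomputable def t1cert (hd : 1 ≤ d) (δ : ℝ) (h0 : 0 < δ) (h1 : δ < 1)
    (hδ : ∀ w, w ≠ w₀ → δ < t1sig D w₀ (D.p w)) : Cert d where
  ι := Option D.ι
  W := {w : D.W // w ≠ w₀} ⊕ D.T w₀
  finW := by
    have := D.finW
    infer_instance
  ne := by
    have hT : (D.T w₀).Nonempty := by
      rw [← Finset.card_pos, D.card]
      omega
    obtain ⟨i, hi⟩ := hT
    exact ⟨Sum.inr ⟨i, hi⟩⟩
  a := fun e => e.elim (t1a D w₀) D.a
  b := fun e => e.elim (t1b D w₀ - δ) D.b
  p := Sum.elim (fun w => D.p w.1) (t1pt D w₀ δ)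
  T := t1T D w₀
  pinj := by
    rintro (w | i) (w' | i') h
    · have h' : D.p w.1 = D.p w'.1 := h
      rw [Subtype.ext (D.pinj h')]
    · exfalso
      have h' : D.p w.1 = t1pt D w₀ δ i' := h
      have h2 := hδ w.1 w.2
      rw [h', t1sig_t1pt] at h2
      exact lt_irrefl _ h2
    · exfalso
      have h' : t1pt D w₀ δ i = D.p w'.1 := h
      have h2 := hδ w'.1 w'.2
      rw [← h', t1sig_t1pt] at h2
      exact lt_irrefl _ h2
    · have h' : t1pt D w₀ δ i = t1pt D w₀ δ i' := h
      by_contra hne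
      have hne' : i.1 ≠ i'.1 := fun h => hne (by rw [Subtype.ext h])
      have h2 := slack_t1pt_self D w₀ δ i
      rw [h', slack_t1pt_of_ne D w₀ δ i' i.2 hne'] at h2
      have h3 := mul_pos h0 (t1sl_pos D w₀ i)
      linarith
  le := by
    rintro (w | i) (_ | j)
    · have h2 := t1b_sub D w₀ (D.p w.1)
      have h3 := hδ w.1 w.2
      simp only [Option.elim_none, Sum.elim_inl]
      linarith
    · exact D.le w.1 j
    · have h2 := t1b_sub D w₀ (t1pt D w₀ δ i)
      rw [t1sig_t1pt] at h2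
      simp only [Option.elim_none, Sum.elim_inr]
      linarith
    · have h2 := slack_t1pt D w₀ δ i j
      have h3 := mul_nonneg (sub_nonneg.mpr h1.le) (sub_nonneg.mpr (D.le w₀ j))
      have h4 := mul_nonneg h0.le (sub_nonneg.mpr (D.le (D.nb w₀ i) j))
      simp only [Option.elim_some, Sum.elim_inr]
      linarith
  tight := by
    rintro (w | i) (_ | j)
    · have h2 := t1b_sub D w₀ (D.p w.1)
      have h3 := hδ w.1 w.2
      simp only [Option.elim_none, Sum.elim_inl]
      constructor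
      · intro h
        exfalso
        linarith
      · intro h
        exact absurd h (none_mem_inl D w₀)
    · rw [some_mem_inl]
      exact D.tight w.1 j
    · have h2 := t1b_sub D w₀ (t1pt D w₀ δ i)
      rw [t1sig_t1pt] at h2
      simp only [Option.elim_none, Sum.elim_inr]
      constructor
      · intro _
        exact none_mem_inr D w₀
      · intro _
        linarith
    · rw [some_mem_inr]
      simp only [Option.elim_some, Sum.elim_inr]
      have h2 := slack_t1pt D w₀ δ i j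
      have h3 := mul_nonneg (sub_nonneg.mpr h1.le) (sub_nonneg.mpr (D.le w₀ j))
      have h4 := mul_nonneg h0.le (sub_nonneg.mpr (D.le (D.nb w₀ i) j))
      constructor
      · intro h
        have h5 : (1 - δ) * (D.b j - D.a j (D.p w₀)) = 0 := by linarith
        have h6 : δ * (D.b j - D.a j (D.p (D.nb w₀ i))) = 0 := by linarith
        have h7 : D.b j - D.a j (D.p w₀) = 0 := by
          rcases mul_eq_zero.mp h5 with h | h
          · exfalso
            linarith
          · exact h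
        have h8 : D.b j - D.a j (D.p (D.nb w₀ i)) = 0 := by
          rcases mul_eq_zero.mp h6 with h | h
          · exfalso
            linarith
          · exact h
        have h9 : j ∈ D.T w₀ := (D.tight w₀ j).mp (by linarith)
        have h10 : j ∈ D.T (D.nb w₀ i) := (D.tight _ j).mp (by linarith)
        exact ⟨fun h => D.nb_notMem w₀ i (h ▸ h10), h9⟩
      · rintro ⟨h5, h6⟩
        have := slack_t1pt_of_ne D w₀ δ i h6 h5
        linarith
  card := by
    classical
    rintro (w | i)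
    · rw [t1T, Finset.card_map, D.card]
    · rw [t1T, Finset.card_insertNone, Finset.card_erase_of_mem i.2, D.card]
      omega
  inj := by
    rintro (w | i) x h
    · exact D.inj w.1 x fun j hj => h (some j) ((some_mem_inl D w₀).mpr hj)
    · have h2 : ∀ j : D.T w₀, j ≠ i → D.a j.1 x = 0 := fun j hj =>
        h (some j.1) ((some_mem_inr D w₀).mpr ⟨fun h => hj (Subtype.ext h), j.2⟩)
      have h3 : t1a D w₀ x = 0 := h none (none_mem_inr D w₀)
      rw [t1a_apply, Finset.sum_eq_single i (fun j _ hj => by rw [h2 j hj, mul_zero])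
        (fun h => absurd (Finset.mem_univ _) h)] at h3
      have h4 : D.a i.1 x = 0 := by
        rcases mul_eq_zero.mp h3 with h | h
        · exact absurd (inv_eq_zero.mp h) (t1sl_pos D w₀ i).ne'
        · exact h
      refine D.inj w₀ x fun j hj => ?_
      by_cases hji : (⟨j, hj⟩ : D.T w₀) = i
      · rw [← hji] at h4
        exact h4
      · exact h2 ⟨j, hj⟩ hji
  nbr := by
    rintro (w | i) (_ | j) he
    · exact absurd he (none_mem_inl D w₀)
    · rw [some_mem_inl] at he
      obtain ⟨w', hne, hT⟩ := D.nbr w.1 j he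
      by_cases hw' : w' = w₀
      · subst hw'
        obtain ⟨i0, hi0, hi0'⟩ : ∃ i0 ∈ D.T w', i0 ∉ D.T w.1 := by
          by_contra hall
          push Not at hall
          exact w.2 (D.eq_of_subset hall)
        refine ⟨Sum.inr ⟨i0, hi0⟩, by simp, ?_⟩
        rintro (_ | j') hj hji
        · exact absurd hj (none_mem_inl D w')
        · rw [some_mem_inl] at hj
          rw [some_mem_inr]
          refine ⟨fun h => hi0' ?_, hT j' hj fun h => hji (by rw [h])⟩
          have h' : j' = i0 := h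
          rw [← h']
          exact hj
      · refine ⟨Sum.inl ⟨w', hw'⟩, fun h => hne (congrArg Subtype.val (Sum.inl.inj h)), ?_⟩
        rintro (_ | j') hj hji
        · exact absurd hj (none_mem_inl D w₀)
        · rw [some_mem_inl] at hj ⊢
          exact hT j' hj fun h => hji (by rw [h])
    · refine ⟨Sum.inl ⟨D.nb w₀ i, D.nb_ne w₀ i⟩, by simp, ?_⟩
      rintro (_ | j') hj hji
      · exact absurd rfl hji
      · rw [some_mem_inr] at hj
        rw [some_mem_inl]
        exact D.nb_mem w₀ i hj.2 hj.1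
    · rw [some_mem_inr] at he
      refine ⟨Sum.inr ⟨j, he.2⟩, fun h => he.1 (congrArg Subtype.val (Sum.inr.inj h)), ?_⟩
      rintro (_ | j') hj hji
      · exact none_mem_inr D w₀
      · rw [some_mem_inr] at hj ⊢
        exact ⟨fun h => hji (by rw [h]), hj.2⟩

private lemma t1cert_adj (hd : 1 ≤ d) (δ : ℝ) (h0 : 0 < δ) (h1 : δ < 1)
    (hδ : ∀ w, w ≠ w₀ → δ < t1sig D w₀ (D.p w)) (x y : {w : D.W // w ≠ w₀} ⊕ D.T w₀) :
    (t1cert D w₀ hd δ h0 h1 hδ).Adj x y ↔ x ≠ y ∧ ∃ e ∈ t1T D w₀ x,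
      ∀ j ∈ t1T D w₀ x, j ≠ e → j ∈ t1T D w₀ y := Iff.rfl

end

/-- Truncation of the vertex `w₀`.  Put `s i = b i - a i (p (nb w₀ i)) > 0` for `i ∈ T w₀`
(`slack_nb_pos`) and `sig x = ∑ i ∈ T w₀, (b i - a i x) / s i`, so `sig (p w₀) = 0`,
`sig (p (nb w₀ i)) = 1` and `sig (p w) > 0` for `w ≠ w₀` (`eq_of_subset`).  Choose `δ` with
`0 < δ < 1` and `δ < sig (p w)` for all `w ≠ w₀`.  New certificate: inequalities `Option D.ι`,
the new one is `sig x ≥ δ`, that is `∑ (1 / s i) a i x ≤ ∑ b i / s i - δ`; nodes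
`{w // w ≠ w₀} ⊕ D.T w₀`, the point of `inl w` is `p w`, with `T = (T w).map some`, the point of
`inr i` is `p w₀ + δ • (p (nb w₀ i) - p w₀)`, with `T = {none} ∪ (T w₀ \ {i}).map some`.
Tightness at `inr i`: the slack of the inequality `j` is `(1 - δ)` times the slack at `w₀` plus
`δ` times the slack at `nb w₀ i`.  `inj`: clear.  `nbr`: for `inl w` and `j`: `nb w j`, or `inr i`
if `nb w j = w₀`, where `i` is the element of `T w₀` which is not in `T w`; for `inr i` and
`none`: `inl (nb w₀ i)`; for `inr i` and `j`: `inr j`.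
Compare `Pool/Agent/Helper70/PolyConstruct.lean` (`sig`, `exists_delta`, `sig_nb`, `newPt`, `cut`),
which does a more complicated operation, and `Pool/Agent/Helper26/PolySep/Trunc.lean`. -/
theorem exists_trunc {d : ℕ} (hd : 1 ≤ d) (D : Cert d) (w₀ : D.W) :
    ∃ (D' : Cert d) (f : {w : D.W // w ≠ w₀} ⊕ D.T w₀ ≃ D'.W),
      (∀ x y, D'.Adj (f (Sum.inl x)) (f (Sum.inl y)) → D.Adj x.1 y.1) ∧
      (∀ x i, D'.Adj (f (Sum.inl x)) (f (Sum.inr i)) → x.1 = D.nb w₀ i) ∧
      ∀ x i, D'.Adj (f (Sum.inr i)) (f (Sum.inl x)) → x.1 = D.nb w₀ i := by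
  classical
  obtain ⟨δ, h0, h1, hδ⟩ := exists_t1delta D w₀
  refine ⟨t1cert D w₀ hd δ h0 h1 hδ, Equiv.refl _, ?_, ?_, ?_⟩
  · intro x y hxy
    obtain ⟨hne, e, he, hT⟩ := (t1cert_adj D w₀ hd δ h0 h1 hδ (Sum.inl x) (Sum.inl y)).mp hxy
    rcases e with _ | j
    · exact absurd he (none_mem_inl D w₀)
    · rw [some_mem_inl] at he
      refine ⟨fun h => hne (by rw [Subtype.ext h]), j, he, fun j' hj' hne' => ?_⟩
      exact (some_mem_inl D w₀).mp (hT (some j') ((some_mem_inl D w₀).mpr hj')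
        fun h => hne' (Option.some.inj h))
  · intro x i hxy
    obtain ⟨-, e, he, hT⟩ := (t1cert_adj D w₀ hd δ h0 h1 hδ (Sum.inl x) (Sum.inr i)).mp hxy
    rcases e with _ | j
    · exact absurd he (none_mem_inl D w₀)
    · rw [some_mem_inl] at he
      have hsub : (D.T x.1).erase j ⊆ (D.T w₀).erase i.1 := by
        intro j' hj'
        rw [Finset.mem_erase] at hj' ⊢
        exact (some_mem_inr D w₀).mp (hT (some j') ((some_mem_inl D w₀).mpr hj'.2)
          fun h => hj'.1 (Option.some.inj h))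
      have heq : (D.T x.1).erase j = (D.T w₀).erase i.1 := by
        refine Finset.eq_of_subset_of_card_le hsub ?_
        rw [Finset.card_erase_of_mem he, Finset.card_erase_of_mem i.2, D.card, D.card]
      refine D.eq_nb x.2 i fun j' hj' hne' => ?_
      have : j' ∈ (D.T w₀).erase i.1 := Finset.mem_erase.mpr ⟨hne', hj'⟩
      rw [← heq] at this
      exact (Finset.mem_erase.mp this).2
  · intro x i hxy
    obtain ⟨-, e, he, hT⟩ := (t1cert_adj D w₀ hd δ h0 h1 hδ (Sum.inr i) (Sum.inl x)).mp hxy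
    have hen : e = none := by
      by_contra hne
      exact none_mem_inl D w₀ (hT none (none_mem_inr D w₀) (Ne.symm hne))
    refine D.eq_nb x.2 i fun j' hj' hne' => ?_
    refine (some_mem_inl D w₀).mp (hT (some j') ((some_mem_inr D w₀).mpr ⟨hne', hj'⟩) ?_)
    rw [hen]
    simp

end Pool.Agent.Helper13.TSL
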