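import Mathlib
import Pool.Agent.Helper13.TSL.P2
import Pool.Agent.Helper13.TSL.T1

/-!
# TSL-P4: coloured polygons
-/

namespace Pool.Agent.Helper13.TSL

open Set Pool.Agent.Helper70.Poly Pool.Agent.Helper26.PolySep

private theorem P4_third {q : ℕ} (hq : 3 ≤ q) (a b : ZMod q) : ∃ c : ZMod q, c ≠ a ∧ c ≠ b := by
  have : NeZero q := ⟨by omega⟩
  by_contra h
  push Not at h
  have h1 : (Finset.univ : Finset (ZMod q)) ⊆ {a, b} := by
    intro c _
    rw [Finset.mem_insert, Finset.mem_singleton]
    by_cases hc : c = a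
    · exact Or.inl hc
    · exact Or.inr (h c hc)
  have h2 := Finset.card_le_card h1
  have h3 : ({a, b} : Finset (ZMod q)).card ≤ 2 := Finset.card_le_two
  rw [Finset.card_univ, ZMod.card] at h2
  omega

private theorem P4_step {q : ℕ} (hq : 3 ≤ q) {m : ℕ} (h : Good 2 q m) (hm : 1 ≤ m) :
    Good 2 q (m + 1) := by
  classical
  obtain ⟨D, hc, col, hcol⟩ := h
  have := D.finW
  obtain ⟨w₀⟩ := D.ne
  obtain ⟨D', f, h1, h2, h3⟩ := exists_trunc (by norm_num) D w₀
  have hT : (D.T w₀).card = 2 := D.card w₀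
  obtain ⟨i, j, hij, hTe⟩ := Finset.card_eq_two.mp hT
  have hi : i ∈ D.T w₀ := by rw [hTe]; simp
  have hj : j ∈ D.T w₀ := by rw [hTe]; simp
  obtain ⟨ci, hci, _⟩ := P4_third hq (col (D.nb w₀ ⟨i, hi⟩)) (col (D.nb w₀ ⟨i, hi⟩))
  obtain ⟨cj, hcj, hcij⟩ := P4_third hq (col (D.nb w₀ ⟨j, hj⟩)) ci
  let c : D.T w₀ → ZMod q := fun k => if k.1 = i then ci else cj
  have hk : ∀ k : D.T w₀, k = ⟨i, hi⟩ ∨ k = ⟨j, hj⟩ := by
    rintro ⟨k, hk⟩
    have hk' := hk
    rw [hTe, Finset.mem_insert, Finset.mem_singleton] at hk'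
    rcases hk' with rfl | rfl
    · exact Or.inl rfl
    · exact Or.inr rfl
  have hcI : c ⟨i, hi⟩ = ci := if_pos rfl
  have hcJ : c ⟨j, hj⟩ = cj := if_neg (fun h => hij h.symm)
  have hc1 : ∀ k : D.T w₀, c k ≠ col (D.nb w₀ k) := by
    intro k
    rcases hk k with rfl | rfl
    · rw [hcI]; exact hci
    · rw [hcJ]; exact hcj
  have hc2 : ∀ k l : D.T w₀, c k = c l → k = l := by
    intro k l hkl
    rcases hk k with rfl | rfl <;> rcases hk l with rfl | rfl
    · rfl
    · rw [hcI, hcJ] at hkl
      exact absurd hkl.symm hcij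
    · rw [hcI, hcJ] at hkl
      exact absurd hkl hcij
    · rfl
  let g : {w : D.W // w ≠ w₀} ⊕ D.T w₀ → ZMod q := Sum.elim (fun x => col x.1) c
  refine ⟨D', ?_, fun w => g (f.symm w), ?_⟩
  · rw [← Nat.card_congr f, Nat.card_sum]
    have e1 : Nat.card (D.T w₀) = 2 := by
      rw [Nat.card_eq_fintype_card, Fintype.card_coe, hT]
    have e2 : Nat.card {w : D.W // w ≠ w₀} = m - 1 := by
      have := Fintype.ofFinite D.W
      rw [Nat.card_eq_fintype_card, Fintype.card_subtype_compl, Fintype.card_subtype_eq,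
        ← Nat.card_eq_fintype_card, hc]
    rw [e1, e2]
    omega
  · intro w w' hadj heq
    obtain ⟨x, rfl⟩ := f.surjective w
    obtain ⟨y, rfl⟩ := f.surjective w'
    simp only [Equiv.symm_apply_apply] at heq
    rcases x with x | k <;> rcases y with y | l
    · exact hcol _ _ (h1 x y hadj) heq
    · have hx := h2 x l hadj
      have heq' : col x.1 = c l := heq
      rw [hx] at heq'
      exact hc1 l heq'.symm
    · have hy := h3 y k hadj
      have heq' : c k = col y.1 := heq
      rw [hy] at heq'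
      exact hc1 k heq'
    · have heq' : c k = c l := heq
      have := hc2 k l heq'
      rw [this] at hadj
      exact hadj.1 rfl

/-- Polygons: start from the triangle and truncate a vertex (`exists_trunc`): the two new nodes
`inr i`, `inr j` get colours which are different from each other and from the colours of
`nb w₀ i`, `nb w₀ j` respectively; this is possible with three colours. -/
theorem good_polygon {q : ℕ} (hq : 3 ≤ q) {m : ℕ} (hm : 3 ≤ m) : Good 2 q m := by
  induction m, hm using Nat.le_induction with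
  | base => exact good_simplex (s := 2) hq
  | succ n hn ih => exact P4_step hq ih (by omega)

end Pool.Agent.Helper13.TSL
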