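import Mathlib
import Pool.Agent.Helper13.TSL.T1

/-!
# TSL-T2: the neighbours in a certificate, first step
-/

namespace Pool.Agent.Helper13.TSL

open Set Pool.Agent.Helper70.Poly Pool.Agent.Helper26.PolySep

/-- The neighbours of `w` are the `nb w i`; they are different from each other. -/
theorem nb_injective {d : ℕ} (D : Cert d) (w : D.W) : Function.Injective (D.nb w) := by
  intro i j hij
  by_contra hne
  apply D.nb_notMem w i
  rw [hij]
  exact D.nb_mem w j i.2 fun h => hne (Subtype.ext h)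

theorem exists_nb {d : ℕ} (D : Cert d) {w x : D.W} (h : D.Adj w x) : ∃ i, D.nb w i = x := by
  obtain ⟨hne, i, hi, hT⟩ := h
  exact ⟨⟨i, hi⟩, (D.eq_nb hne.symm ⟨i, hi⟩ hT).symm⟩

theorem adj_symm {d : ℕ} (D : Cert d) {w x : D.W} (h : D.Adj w x) : D.Adj x w := by
  rw [← D.skel_adj_iff] at h ⊢
  exact h.symm

/-- Step one: truncate a node `w₀ ∈ M` and put all new nodes into `M` and `A`; `lab` is unchanged
on the old nodes (and `0` on the new ones).  A new node has at most one neighbour outside the new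
`M` (the old neighbour `nb w₀ i`). -/
theorem St.one {d n k a r : ℕ} (hd : 1 ≤ d) (h : St d n k a r) : St d (n - 1 + d) k d 1 := by
  classical
  obtain ⟨D, M, A, lab, hMne, hMn, hAM, hA, hlab, hk, hr⟩ := h
  have := D.finW
  obtain ⟨w₀, hw₀⟩ := hMne
  obtain ⟨D', f, hf1, hf2, hf3⟩ := exists_trunc hd D w₀
  have := D'.finW
  set R : Set ({w : D.W // w ≠ w₀} ⊕ D.T w₀) := range Sum.inr with hR
  set I : Set ({w : D.W // w ≠ w₀} ⊕ D.T w₀) := Sum.inl '' {w | w.1 ∈ M} with hI
  have hRc : R.ncard = d := by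
    rw [hR, ← Set.image_univ, Set.ncard_image_of_injective _ Sum.inr_injective, Set.ncard_univ,
      Nat.card_eq_fintype_card, Fintype.card_coe, D.card]
  have hIc : I.ncard = M.ncard - 1 := by
    rw [hI, Set.ncard_image_of_injective _ Sum.inl_injective]
    have h1 : (Subtype.val '' {w : {w : D.W // w ≠ w₀} | w.1 ∈ M}) = M \ {w₀} := by
      ext w
      constructor
      · rintro ⟨x, hx, rfl⟩
        exact ⟨hx, x.2⟩
      · rintro ⟨h1, h2⟩
        exact ⟨⟨w, h2⟩, h1, rfl⟩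
    rw [← Set.ncard_image_of_injective _ Subtype.val_injective, h1,
      Set.ncard_diff_singleton_of_mem hw₀]
  have hM0 : 1 ≤ M.ncard := by
    have h0 : 0 < M.ncard := (Set.ncard_pos).mpr ⟨w₀, hw₀⟩
    omega
  have hout : ∀ y, y ∉ f '' (I ∪ R) → ∃ w : {w : D.W // w ≠ w₀}, w.1 ∉ M ∧ y = f (Sum.inl w) := by
    intro y hy
    obtain ⟨x, rfl⟩ := f.surjective y
    rcases x with w | i
    · refine ⟨w, fun hw => hy ⟨Sum.inl w, Or.inl ⟨w, hw, rfl⟩, rfl⟩, rfl⟩
    · exact absurd ⟨Sum.inr i, Or.inr ⟨i, rfl⟩, rfl⟩ hy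
  refine ⟨D', f '' (I ∪ R), f '' R, fun y => (f.symm y).elim (fun w => lab w.1) fun _ => 0,
    ?_, ?_, Set.image_mono Set.subset_union_right, ?_, ?_, ?_, ?_⟩
  · have : R.Nonempty := by
      rw [← Set.ncard_pos, hRc]
      omega
    exact (this.mono Set.subset_union_right).image _
  · rw [Set.ncard_image_of_injective _ f.injective]
    have := Set.ncard_union_le I R
    omega
  · rw [Set.ncard_image_of_injective _ f.injective, hRc]
  · intro x y hxy hx hy
    obtain ⟨w, hw, rfl⟩ := hout x hx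
    obtain ⟨w', hw', rfl⟩ := hout y hy
    simp only [Equiv.symm_apply_apply, Sum.elim_inl]
    exact hlab _ _ (hf1 _ _ hxy) hw hw'
  · intro c hc
    obtain ⟨x, hx, hxc⟩ := hk c hc
    have hxw : x ≠ w₀ := fun h => hx (h ▸ hw₀)
    refine ⟨f (Sum.inl ⟨x, hxw⟩), ?_, ?_⟩
    · rintro ⟨z, hz, hzx⟩
      rw [f.injective hzx] at hz
      rcases hz with ⟨w, hw, hwx⟩ | ⟨i, hi⟩
      · rw [Sum.inl.inj hwx] at hw
        exact hx hw
      · exact absurd hi (by simp)
    · simp only [Equiv.symm_apply_apply, Sum.elim_inl]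
      exact hxc
  · rintro _ ⟨_, ⟨i, rfl⟩, rfl⟩
    rw [Set.ncard_le_one (Set.toFinite _)]
    rintro y ⟨hy1, hy2⟩ z ⟨hz1, hz2⟩
    obtain ⟨w, hw, rfl⟩ := hout y hy2
    obtain ⟨w', hw', rfl⟩ := hout z hz2
    have h1 := hf3 _ _ hy1
    have h2 := hf3 _ _ hz1
    rw [Subtype.ext (h1.trans h2.symm)]

end Pool.Agent.Helper13.TSL
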