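import Mathlib
import Pool.Agent.Helper13.TSL.T2

/-!
# TSL-T4: padding, and the link to `sepCards`
-/

namespace Pool.Agent.Helper13.TSL

open Set Pool.Agent.Helper70.Poly Pool.Agent.Helper26.PolySep

/-- Padding: truncate a node `w₀ ∉ M`, put one new node into `M`, give the other new nodes (there
is at least one, as `d ≥ 2`) the label of `w₀`. -/
theorem Pd.succ {d n k : ℕ} (hd : 2 ≤ d) (hk : 1 ≤ k) (h : Pd d n k) : Pd d (n + 1) k := by
  classical
  obtain ⟨D, M, lab, hM, hlab, hc⟩ := h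
  obtain ⟨w₀, hw₀, -⟩ := hc 0 (by omega)
  obtain ⟨D', f, f1, f2, f3⟩ := exists_trunc (by omega) D w₀
  have := D.finW
  have := D'.finW
  obtain ⟨i0, hi0, i1, hi1, hne⟩ := Finset.one_lt_card.mp
    (show 1 < (D.T w₀).card by rw [D.card]; omega)
  have hadj : ∀ i : D.T w₀, D.Adj w₀ (D.nb w₀ i) := fun i =>
    ⟨(D.nb_ne w₀ i).symm, i.1, i.2, fun j hj hji => D.nb_mem w₀ i hj hji⟩
  have hinl : ∀ x : {w : D.W // w ≠ w₀},
      f (Sum.inl x) ∈ f '' (Sum.inl '' {x | x.1 ∈ M} ∪ {Sum.inr ⟨i0, hi0⟩}) ↔ x.1 ∈ M := by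
    intro x
    rw [f.injective.mem_set_image]
    simp
  have hinr : ∀ i : D.T w₀,
      f (Sum.inr i) ∈ f '' (Sum.inl '' {x | x.1 ∈ M} ∪ {Sum.inr ⟨i0, hi0⟩}) ↔
        i = ⟨i0, hi0⟩ := by
    intro i
    rw [f.injective.mem_set_image]
    simp
  obtain ⟨lab', hl1, hl2⟩ : ∃ lab' : D'.W → ℕ, (∀ x, lab' (f (Sum.inl x)) = lab x.1) ∧
      ∀ i, lab' (f (Sum.inr i)) = lab w₀ :=
    ⟨fun y => Sum.elim (fun x : {w : D.W // w ≠ w₀} => lab x.1) (fun _ => lab w₀) (f.symm y),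
      fun x => by simp, fun i => by simp⟩
  refine ⟨D', f '' (Sum.inl '' {x | x.1 ∈ M} ∪ {Sum.inr ⟨i0, hi0⟩}), lab', ?_, ?_, ?_⟩
  · rw [ncard_image_of_injective _ f.injective, union_singleton,
      ncard_insert_of_notMem (by simp) (toFinite _),
      ncard_image_of_injective _ Sum.inl_injective, ← hM]
    congr 1
    rw [← ncard_image_of_injective _ (Subtype.val_injective (p := fun w : D.W => w ≠ w₀))]
    congr 1
    ext x
    constructor
    · rintro ⟨y, hy, rfl⟩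
      exact hy
    · intro hx
      exact ⟨⟨x, fun h => hw₀ (h ▸ hx)⟩, hx, rfl⟩
  · intro x y hxy hx hy
    obtain ⟨x, rfl⟩ := f.surjective x
    obtain ⟨y, rfl⟩ := f.surjective y
    rcases x with x | i
    · rw [hinl] at hx
      rcases y with y | j
      · rw [hinl] at hy
        rw [hl1, hl1]
        exact hlab _ _ (f1 x y hxy) hx hy
      · have h1 := f2 x j hxy
        rw [hl1, hl2]
        rw [h1] at hx ⊢
        exact (hlab _ _ (hadj j) hw₀ hx).symm
    · rcases y with y | j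
      · rw [hinl] at hy
        have h1 := f3 y i hxy
        rw [hl1, hl2]
        rw [h1] at hy ⊢
        exact hlab _ _ (hadj i) hw₀ hy
      · rw [hl2, hl2]
  · intro c hck
    obtain ⟨x, hx, hxc⟩ := hc c hck
    by_cases hxw : x = w₀
    · refine ⟨f (Sum.inr ⟨i1, hi1⟩), ?_, ?_⟩
      · rw [hinr]
        intro h
        exact hne (congrArg Subtype.val h).symm
      · rw [hl2, ← hxw, hxc]
    · refine ⟨f (Sum.inl ⟨x, hxw⟩), ?_, ?_⟩
      · rw [hinl]
        exact hx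
      · rw [hl1]
        exact hxc

theorem Pd.mono {d n n' k : ℕ} (hd : 2 ≤ d) (hk : 1 ≤ k) (hn : n ≤ n') (h : Pd d n k) :
    Pd d n' k := by
  induction n', hn using Nat.le_induction with
  | base => exact h
  | succ m _ ih => exact Pd.succ hd hk ih

theorem St.pd {d n k a r : ℕ} (hd : 2 ≤ d) (hk : 1 ≤ k) (h : St d n k a r) : Pd d n k := by
  obtain ⟨D, M, A, lab, -, hM, -, -, hlab, hc, -⟩ := h
  exact Pd.mono hd hk hM ⟨D, M, lab, rfl, hlab, hc⟩

end Pool.Agent.Helper13.TSL
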