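import Mathlib
import Pool.Agent.Helper13.TSL.Defs
import Pool.Agent.Helper26.PolySep.Lower

/-!
# TSL-T5: the link to `sepCards`, the first state
-/

namespace Pool.Agent.Helper13.TSL

open Set Pool.Agent.Helper70.Poly Pool.Agent.Helper26.PolySep

/-- Choose one node outside `M` for each label `c < k`.  Compare the end of the proof of
`Pool.Agent.Helper26.PolySep.mem_sepCards` (induction on the walk: the label is constant along a
walk which avoids `M`; `D.vert`, `D.vert_injective`, `D.vert_surjective`, `D.skel_adj_iff`,
`D.isSimplePolytope`). -/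
theorem Pd.mem_sepCards {d n k : ℕ} (h : Pd d n k) : k ∈ sepCards n d := by
  classical
  obtain ⟨D, M, lab, hM, hadj, hlab⟩ := h
  have : Finite D.W := D.finW
  have hfin : M.Finite := Set.toFinite M
  have hch : ∀ c : Fin k, ∃ x, x ∉ M ∧ lab x = c.val := fun c => hlab c.val c.2
  choose g hg1 hg2 using hch
  have hginj : Function.Injective g := fun i j h => by
    apply Fin.ext
    rw [← hg2 i, ← hg2 j, h]
  let vt : D.W → D.P.extremePoints ℝ := D.vert
  have hinj : Function.Injective vt := D.vert_injective
  refine ⟨D.P, D.isSimplePolytope, hfin.toFinset.image vt, Finset.univ.image fun i => vt (g i),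
    ?_, ?_, ?_, ?_⟩
  · rw [Finset.card_image_of_injective _ hinj, ← hM, Set.ncard_eq_toFinset_card M hfin]
  · have h1 : Function.Injective fun i => vt (g i) := fun i j h => hginj (hinj h)
    rw [Finset.card_image_of_injective _ h1]
    simp
  · rw [Finset.disjoint_left]
    intro x hx hx'
    obtain ⟨w, hw, rfl⟩ := Finset.mem_image.mp hx
    obtain ⟨i, _, hi⟩ := Finset.mem_image.mp hx'
    have h1 := hinj hi
    subst h1
    exact hg1 i (hfin.mem_toFinset.mp hw)
  · have key : ∀ {a b : D.P.extremePoints ℝ} (p : (skel D.P).Walk a b),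
        (∀ x ∈ p.support, x ∉ hfin.toFinset.image vt) → ∀ w w' : D.W, a = vt w → b = vt w' →
          lab w = lab w' := by
      intro a b p
      induction p with
      | nil =>
        intro _ w w' hw hw'
        rw [hinj (hw.symm.trans hw')]
      | @cons a c b hac p ih =>
        intro hp w w' hw hw'
        obtain ⟨wc, hwc⟩ : ∃ wc : D.W, vt wc = c := D.vert_surjective c
        have e1 : lab wc = lab w' := ih (fun x hx => hp x (by
          rw [SimpleGraph.Walk.support_cons]
          exact List.mem_cons_of_mem _ hx)) wc w' hwc.symm hw'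
        have hadj' : D.Adj w wc := by
          refine (D.skel_adj_iff w wc).mp ?_
          change (skel D.P).Adj (vt w) (vt wc)
          rw [← hw, hwc]
          exact hac
        have hnw : w ∉ M := by
          intro h
          apply hp a (by simp)
          rw [hw]
          exact Finset.mem_image_of_mem _ (hfin.mem_toFinset.mpr h)
        have hnwc : wc ∉ M := by
          intro h
          apply hp c (by
            rw [SimpleGraph.Walk.support_cons]
            exact List.mem_cons_of_mem _ (SimpleGraph.Walk.start_mem_support p))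
          rw [← hwc]
          exact Finset.mem_image_of_mem _ (hfin.mem_toFinset.mpr h)
        exact (hadj w wc hadj' hnw hnwc).trans e1
    intro a ha b hb hab p _
    by_contra hcon
    push Not at hcon
    obtain ⟨i, _, rfl⟩ := Finset.mem_image.mp ha
    obtain ⟨j, _, rfl⟩ := Finset.mem_image.mp hb
    have h3 := key p hcon _ _ rfl rfl
    rw [hg2, hg2] at h3
    exact hab (by rw [Fin.ext h3])

/-- The simplex `trunc d 0` (nodes `TW d 0`), with `M` a single node and `A = ∅`, label `0`
everywhere. -/
theorem st_init {d : ℕ} (hd : 1 ≤ d) : St d 1 1 0 0 := by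
  classical
  let x0 : TW d 0 := ⟨(Fin.last d, Fin.last d), Or.inl ⟨rfl, Nat.zero_le _⟩⟩
  let x1 : TW d 0 := ⟨(0, 0), Or.inl ⟨rfl, Nat.zero_le _⟩⟩
  have hne : x1 ≠ x0 := by
    intro h
    have h1 := congrArg (fun z : TW d 0 => z.1.1.val) h
    simp only [x0, x1, Fin.val_zero, Fin.val_last] at h1
    omega
  refine ⟨trunc d 0 (Nat.zero_le d), {x0}, ∅, fun _ => 0, ⟨x0, rfl⟩, ?_, empty_subset _,
    Set.ncard_empty _, fun _ _ _ _ _ => rfl, ?_, ?_⟩
  · exact (Set.ncard_singleton x0).le
  · intro c hc
    refine ⟨x1, fun h => hne h, ?_⟩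
    change 0 = c
    omega
  · intro x hx
    exact absurd hx (Set.notMem_empty x)

end Pool.Agent.Helper13.TSL
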