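import Mathlib
import Pool.Agent.Helper13.TSL.P4
import Pool.Agent.Helper13.TSL.T4
import Pool.Agent.Helper13.TSL.T5

/-!
# TSL-P3: the second lower bound
-/

namespace Pool.Agent.Helper13.TSL

open Set Pool.Agent.Helper70.Poly Pool.Agent.Helper26.PolySep

/-- Let `K` be the largest colour class, `N ≤ q |K|`.  `M` = all other nodes, the nodes of `K` get
different labels `0, ..., |K| - 1`. -/
theorem Good.pd {d q N : ℕ} (hq : 1 ≤ q) (h : Good d q N) :
    ∃ k n, n + k = N ∧ N ≤ q * k ∧ Pd d n k := by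
  classical
  obtain ⟨D, hN, col, hcol⟩ := h
  have := D.finW
  have hfin : Fintype D.W := Fintype.ofFinite _
  have : NeZero q := ⟨by omega⟩
  have hex : ∃ c : ZMod q, N ≤ q * (Finset.univ.filter fun w => col w = c).card := by
    by_contra hcon
    push Not at hcon
    have h1 : (Finset.univ : Finset D.W).card =
        ∑ c : ZMod q, (Finset.univ.filter fun w => col w = c).card :=
      Finset.card_eq_sum_card_fiberwise (f := col) (t := Finset.univ) (fun x _ => by simp)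
    have h2 : ∑ c : ZMod q, q * (Finset.univ.filter fun w => col w = c).card <
        ∑ _c : ZMod q, N := by
      apply Finset.sum_lt_sum_of_nonempty Finset.univ_nonempty
      intro c _
      exact hcon c
    rw [← Finset.mul_sum, ← h1, Finset.sum_const, Finset.card_univ, Finset.card_univ, ZMod.card,
      smul_eq_mul, ← Nat.card_eq_fintype_card, hN] at h2
    exact lt_irrefl _ h2
  obtain ⟨c, hc⟩ := hex
  set K : Finset D.W := Finset.univ.filter fun w => col w = c with hK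
  have hKN : K.card + Kᶜ.card = N := by
    rw [Finset.card_add_card_compl, ← Nat.card_eq_fintype_card, hN]
  have hmem : ∀ x, x ∈ K ↔ col x = c := by
    intro x
    rw [hK, Finset.mem_filter]
    exact ⟨fun h => h.2, fun h => ⟨Finset.mem_univ _, h⟩⟩
  refine ⟨K.card, Kᶜ.card, by omega, hc, D, (Kᶜ : Finset D.W),
    fun w => if h : w ∈ K then (K.equivFin ⟨w, h⟩).val else 0, ?_, ?_, ?_⟩
  · exact Set.ncard_coe_finset _
  · intro x y hxy hx hy
    exfalso
    have hx' : x ∈ K := by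
      by_contra h
      exact hx (Finset.mem_coe.mpr (Finset.mem_compl.mpr h))
    have hy' : y ∈ K := by
      by_contra h
      exact hy (Finset.mem_coe.mpr (Finset.mem_compl.mpr h))
    exact hcol x y hxy (((hmem x).mp hx').trans ((hmem y).mp hy').symm)
  · intro j hj
    refine ⟨(K.equivFin.symm ⟨j, hj⟩).1, ?_, ?_⟩
    · intro h
      exact Finset.mem_compl.mp (Finset.mem_coe.mp h) (K.equivFin.symm ⟨j, hj⟩).2
    · have h1 : (K.equivFin.symm ⟨j, hj⟩).1 ∈ K := (K.equivFin.symm ⟨j, hj⟩).2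
      simp only [h1, dif_pos, Subtype.coe_eta, Equiv.apply_symm_apply]

/-- **Second lower bound.**  `d - 2 = s t + r` with `r < s`; the product of `t` simplices of
dimension `s`, a simplex of dimension `r` and a polygon with `m` vertices is `(s + 1)`-colourable
and has `m N₀` nodes, `N₀ = (s + 1) ^ t (r + 1) ≤ (s + 1) ^ (t + 1)`.  Take `m = n / N₀ ≥ 3`; then
`3 m N₀ ≥ 2 n` and `m N₀ ≤ n`; `Good.pd`, padding (`Pd.mono`), `Pd.mem_sepCards`:
`2 n ≤ 3 m N₀ ≤ 3 (s + 1) k`. -/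
theorem lower_two {d n s : ℕ} (hd : 2 ≤ d) (hs : 2 ≤ s)
    (hn : 3 * (s + 1) ^ ((d - 2) / s + 1) ≤ n) :
    ∃ k ∈ sepCards n d, 2 * n ≤ 3 * (s + 1) * k := by
  obtain ⟨t, ht⟩ : ∃ t, t = (d - 2) / s := ⟨_, rfl⟩
  obtain ⟨r, hr⟩ : ∃ r, r = (d - 2) % s := ⟨_, rfl⟩
  have hrs : r < s := by rw [hr]; exact Nat.mod_lt _ (by omega)
  have hdd : s * t + r + 2 = d := by
    have := Nat.div_add_mod (d - 2) s
    rw [← ht, ← hr] at this
    omega
  rw [← ht] at hn
  obtain ⟨N₀, hN₀⟩ : ∃ N₀, N₀ = (s + 1) ^ t * (r + 1) := ⟨_, rfl⟩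
  have hN₀pos : 0 < N₀ := by rw [hN₀]; positivity
  have hN₀le : N₀ ≤ (s + 1) ^ (t + 1) := by
    rw [hN₀, pow_succ]
    exact Nat.mul_le_mul_left _ (by omega)
  obtain ⟨m, hm⟩ : ∃ m, m = n / N₀ := ⟨_, rfl⟩
  have hm3 : 3 ≤ m := by
    rw [hm, Nat.le_div_iff_mul_le hN₀pos]
    calc 3 * N₀ ≤ 3 * (s + 1) ^ (t + 1) := Nat.mul_le_mul_left _ hN₀le
      _ ≤ n := hn
  have hle : N₀ * m ≤ n := by rw [hm]; exact Nat.mul_div_le n N₀
  have hlt : n < N₀ * (m + 1) := by
    rw [hm]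
    exact Nat.lt_mul_div_succ n hN₀pos
  have hgood : Good d (s + 1) (N₀ * m) := by
    have h1 : Good (s * t) (s + 1) ((s + 1) ^ t) := good_pow (le_refl _) t
    have h2 : Good r (s + 1) (r + 1) := good_simplex (by omega)
    have h3 : Good 2 (s + 1) m := good_polygon (by omega) hm3
    have h4 := (h1.prod h2).prod h3
    rw [hdd, ← hN₀] at h4
    exact h4
  obtain ⟨k, n₀, hnk, hNk, hpd⟩ := hgood.pd (by omega)
  have hk : 1 ≤ k := by
    by_contra h
    have hk0 : k = 0 := by omega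
    rw [hk0, Nat.mul_zero] at hNk
    have : 0 < N₀ * m := Nat.mul_pos hN₀pos (by omega)
    omega
  refine ⟨k, (Pd.mono hd hk (by omega) hpd).mem_sepCards, ?_⟩
  have h5 : 2 * n ≤ 3 * (N₀ * m) := by
    have h6 : 2 * (N₀ * (m + 1)) ≤ 3 * (N₀ * m) := by
      have : 2 * (m + 1) ≤ 3 * m := by omega
      calc 2 * (N₀ * (m + 1)) = N₀ * (2 * (m + 1)) := by ring
        _ ≤ N₀ * (3 * m) := Nat.mul_le_mul_left _ this
        _ = 3 * (N₀ * m) := by ring
    omega
  calc 2 * n ≤ 3 * (N₀ * m) := h5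
    _ ≤ 3 * ((s + 1) * k) := Nat.mul_le_mul_left _ hNk
    _ = 3 * (s + 1) * k := by ring

end Pool.Agent.Helper13.TSL
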