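import Mathlib

/-!
# TSL-R1: the choice of s (real analysis)
-/

namespace Pool.Agent.Helper13.TSL

/-- The numerical part: for `d ≥ 400` and `√d ≤ l ≤ d` put `y = 4 d / l ≥ 4` and
`s = ⌈y log y⌉`.  Then `((d - 2) / s + 1) log (s + 1) + log 3 ≤ l` (as
`log (s + 1) ≤ 2 log y` and `d / s ≤ d / (y log y) = l / (4 log y)` give `l / 2` for the first
product, and `2 log y + log 3 ≤ 2 log (4 √d) + log 3 ≤ √d / 2 ≤ l / 2`), and
`s + 1 ≤ y log y + 2 ≤ 8 (d / l) (1 + log (d / l))`. -/
theorem exists_s {d : ℕ} (hd : 400 ≤ d) {l : ℝ} (h1 : √(d : ℝ) ≤ l) (h2 : l ≤ d) :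
    ∃ s : ℕ, 2 ≤ s ∧
      (((d - 2) / s + 1 : ℕ) : ℝ) * Real.log (s + 1) + Real.log 3 ≤ l ∧
      ((s : ℝ) + 1) ≤ 8 * ((d : ℝ) / l) * (1 + Real.log (d / l)) := by
  have hdR : (400 : ℝ) ≤ d := by exact_mod_cast hd
  have hd0 : (0 : ℝ) < d := by linarith
  set r : ℝ := √(d : ℝ) with hr
  have hr20 : (20 : ℝ) ≤ r := by
    rw [hr]
    apply Real.le_sqrt_of_sq_le
    linarith
  have hrr : r * r = d := Real.mul_self_sqrt hd0.le
  have hl0 : 0 < l := by linarith
  set u : ℝ := (d : ℝ) / l with hu
  have hu1 : 1 ≤ u := by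
    rw [hu, le_div_iff₀ hl0]
    linarith
  have hur : u ≤ r := by
    rw [hu, div_le_iff₀ hl0]
    nlinarith
  have hul : u * l = d := by
    rw [hu]
    field_simp
  set y : ℝ := 4 * u with hy
  have hy4 : 4 ≤ y := by linarith
  have hy0 : 0 < y := by linarith
  have hlog4 : Real.log 4 = 2 * Real.log 2 := by
    rw [show (4 : ℝ) = 2 ^ 2 by norm_num, Real.log_pow]
    norm_num
  have hl2a := Real.log_two_gt_d9
  have hl2b := Real.log_two_lt_d9
  have hlogu : 0 ≤ Real.log u := Real.log_nonneg hu1
  have hlogy : Real.log y = Real.log 4 + Real.log u := by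
    rw [hy, Real.log_mul (by norm_num) (by linarith)]
  have hlogy1 : 1 < Real.log y := by rw [hlogy, hlog4]; linarith
  have hyl0 : 0 < y * Real.log y := by positivity
  have hyl4 : 4 < y * Real.log y := by nlinarith
  set s : ℕ := ⌈y * Real.log y⌉₊ with hs
  have hs1 : y * Real.log y ≤ s := Nat.le_ceil _
  have hs2 : (s : ℝ) < y * Real.log y + 1 := Nat.ceil_lt_add_one hyl0.le
  have hs4 : (4 : ℝ) < s := by linarith
  have hs4' : 4 < s := by exact_mod_cast hs4
  have hs0 : (0 : ℝ) < s := by linarith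
  refine ⟨s, by omega, ?_, ?_⟩
  · -- the logarithm of `s + 1`
    have hlogle : Real.log y ≤ y / 2 := by
      have h := Real.log_le_sub_one_of_pos (show (0 : ℝ) < y / 2 by linarith)
      rw [Real.log_div (by linarith) (by norm_num)] at h
      linarith
    have hsy : (s : ℝ) + 1 ≤ y ^ 2 := by nlinarith
    have hlogs : Real.log ((s : ℝ) + 1) ≤ 2 * Real.log y := by
      have h := Real.log_le_log (by linarith) hsy
      rw [Real.log_pow] at h
      exact_mod_cast h
    have hlogs0 : 0 ≤ Real.log ((s : ℝ) + 1) := Real.log_nonneg (by linarith)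
    have hdiv : (((d - 2) / s + 1 : ℕ) : ℝ) ≤ l / (4 * Real.log y) + 1 := by
      push_cast
      have h3 : (((d - 2) / s : ℕ) : ℝ) ≤ ((d - 2 : ℕ) : ℝ) / s := Nat.cast_div_le
      have h4 : ((d - 2 : ℕ) : ℝ) ≤ d := by exact_mod_cast Nat.sub_le _ _
      have h5 : ((d - 2 : ℕ) : ℝ) / s ≤ d / (y * Real.log y) := by
        apply div_le_div₀ hd0.le h4 hyl0 hs1
      have h6 : (d : ℝ) / (y * Real.log y) = l / (4 * Real.log y) := by
        rw [← hul, hy]
        have : Real.log (4 * u) ≠ 0 := by
          rw [← hy]; linarith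
        field_simp
      linarith
    have hprod : (((d - 2) / s + 1 : ℕ) : ℝ) * Real.log ((s : ℝ) + 1) ≤
        (l / (4 * Real.log y) + 1) * (2 * Real.log y) := by
      apply mul_le_mul hdiv hlogs hlogs0
      positivity
    have hprod2 : (l / (4 * Real.log y) + 1) * (2 * Real.log y) = l / 2 + 2 * Real.log y := by
      have : Real.log y ≠ 0 := by linarith
      field_simp
      ring
    -- the remaining part
    have hy4r : y ≤ 4 * r := by linarith
    have hlogy4r : Real.log y ≤ Real.log 80 + (r / 20 - 1) := by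
      have h := Real.log_le_log hy0 hy4r
      have h' : Real.log (4 * r) = Real.log 80 + Real.log (r / 20) := by
        rw [← Real.log_mul (by norm_num) (by positivity)]
        congr 1
        ring
      have h'' := Real.log_le_sub_one_of_pos (show (0 : ℝ) < r / 20 by linarith)
      linarith
    have hnum : 2 * Real.log 80 + Real.log 3 ≤ 10 := by
      have h : 2 * Real.log 80 + Real.log 3 = Real.log 19200 := by
        rw [show (19200 : ℝ) = 80 ^ 2 * 3 by norm_num, Real.log_mul (by norm_num) (by norm_num),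
          Real.log_pow]
        norm_num
      rw [h, Real.log_le_iff_le_exp (by norm_num)]
      have h1 := Real.exp_one_gt_d9
      have h2 : Real.exp 10 = Real.exp 1 ^ 10 := by
        rw [← Real.exp_nat_mul]
        norm_num
      rw [h2]
      calc (19200 : ℝ) ≤ 2.7182818283 ^ 10 := by norm_num
        _ ≤ Real.exp 1 ^ 10 := by
          apply pow_le_pow_left₀ (by norm_num) h1.le
    linarith
  · have h7 : y * Real.log y = 4 * u * (2 * Real.log 2) + 4 * u * Real.log u := by
      rw [hlogy, hlog4, hy]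
      ring
    have h8 : 0 ≤ u * Real.log u := by positivity
    have h9 : u * Real.log 2 ≤ u * 0.6931471808 := by
      apply mul_le_mul_of_nonneg_left hl2b.le (by linarith)
    nlinarith

end Pool.Agent.Helper13.TSL
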