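import Mathlib
import Pool.Agent.Helper13.TSL.T2

/-!
# TSL-T3: second step
-/

namespace Pool.Agent.Helper13.TSL

open Set Pool.Agent.Helper70.Poly Pool.Agent.Helper26.PolySep

/-- Step two: truncate a node `w₀ ∈ A` (it has at most `r < d` neighbours outside `M`).  The new
node `inr i` is put into `M` if and only if `nb w₀ i ∉ M`; the others get the new label `k` (there
is one, as `r < d`).  An edge from an old node `x ∉ M` to a new node `inr i` has `x = nb w₀ i`, so
`inr i` is in the new `M`.  The new `M` has at most `n - 1 + r` elements and is not empty (if all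
neighbours of `w₀` are in `M`, they stay there).  The new `A` is `A \ {w₀}`; a node of it gets at
most one new neighbour outside `M`. -/
theorem St.two {d n k a r : ℕ} (hr : r < d) (h : St d n k (a + 1) r) :
    St d (n - 1 + r) (k + 1) a (r + 1) := by
  classical
  obtain ⟨D, M, A, lab, hMne, hMn, hAM, hA, hlab, hlabs, hout⟩ := h
  have hfin := D.finW
  have hAne : A.Nonempty := by
    rw [Set.nonempty_iff_ne_empty]
    rintro rfl
    simp at hA
  obtain ⟨w₀, hw₀⟩ := hAne
  have hw₀M : w₀ ∈ M := hAM hw₀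
  obtain ⟨D', f, hf1, hf2, hf3⟩ := exists_trunc (by omega) D w₀
  have hfin' := D'.finW
  have hinj := nb_injective D w₀
  -- the neighbours outside `M`
  have hI : {i : D.T w₀ | D.nb w₀ i ∉ M}.ncard ≤ r := by
    refine le_trans ?_ (hout w₀ hw₀)
    rw [← Set.ncard_image_of_injective _ hinj]
    refine Set.ncard_le_ncard ?_ (Set.toFinite _)
    rintro _ ⟨i, hi, rfl⟩
    exact ⟨D.adj_nb w₀ i, hi⟩
  obtain ⟨i₀, hi₀⟩ : ∃ i : D.T w₀, D.nb w₀ i ∈ M := by
    by_contra hcon
    push Not at hcon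
    have h1 : {i : D.T w₀ | D.nb w₀ i ∉ M} = Set.univ := by
      ext i
      simp [hcon i]
    rw [h1, Set.ncard_univ, Nat.card_eq_fintype_card, Fintype.card_coe, D.card] at hI
    omega
  have hval : ∀ S : Set D.W, {x : {w : D.W // w ≠ w₀} | x.1 ∈ S}.ncard = (S \ {w₀}).ncard := by
    intro S
    rw [← Set.ncard_image_of_injective _ Subtype.val_injective]
    congr 1
    ext x
    constructor
    · rintro ⟨y, hy, rfl⟩
      exact ⟨hy, y.2⟩
    · rintro ⟨h1, h2⟩
      exact ⟨⟨x, h2⟩, h1, rfl⟩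
  have hinl : ∀ x : {w : D.W // w ≠ w₀}, f (Sum.inl x) ∈
      f '' (Sum.inl '' {x : {w : D.W // w ≠ w₀} | x.1 ∈ M} ∪
        Sum.inr '' {i : D.T w₀ | D.nb w₀ i ∉ M}) ↔ x.1 ∈ M := by
    intro x
    rw [f.injective.mem_set_image]
    simp
  have hinr : ∀ i : D.T w₀, f (Sum.inr i) ∈
      f '' (Sum.inl '' {x : {w : D.W // w ≠ w₀} | x.1 ∈ M} ∪
        Sum.inr '' {i : D.T w₀ | D.nb w₀ i ∉ M}) ↔ D.nb w₀ i ∉ M := by
    intro i
    rw [f.injective.mem_set_image]
    simp
  refine ⟨D', f '' (Sum.inl '' {x : {w : D.W // w ≠ w₀} | x.1 ∈ M} ∪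
    Sum.inr '' {i : D.T w₀ | D.nb w₀ i ∉ M}),
    f '' (Sum.inl '' {x : {w : D.W // w ≠ w₀} | x.1 ∈ A}),
    fun y => Sum.elim (fun x => lab x.1) (fun _ => k) (f.symm y), ?_, ?_, ?_, ?_, ?_, ?_, ?_⟩
  · exact ⟨_, (hinl ⟨D.nb w₀ i₀, D.nb_ne w₀ i₀⟩).2 hi₀⟩
  · rw [Set.ncard_image_of_injective _ f.injective]
    refine (Set.ncard_union_le _ _).trans ?_
    rw [Set.ncard_image_of_injective _ Sum.inl_injective,
      Set.ncard_image_of_injective _ Sum.inr_injective, hval,
      Set.ncard_sdiff_singleton_of_mem hw₀M]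
    omega
  · refine Set.image_mono (Set.subset_union_of_subset_left (Set.image_mono ?_) _)
    intro x hx
    exact hAM hx
  · rw [Set.ncard_image_of_injective _ f.injective,
      Set.ncard_image_of_injective _ Sum.inl_injective, hval,
      Set.ncard_sdiff_singleton_of_mem hw₀, hA]
    rfl
  · intro x y hxy hx hy
    obtain ⟨x, rfl⟩ := f.surjective x
    obtain ⟨y, rfl⟩ := f.surjective y
    simp only [Equiv.symm_apply_apply]
    rcases x with x | i
    · rw [hinl] at hx
      rcases y with y | j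
      · rw [hinl] at hy
        exact hlab _ _ (hf1 x y hxy) hx hy
      · rw [hinr, not_not] at hy
        rw [hf2 x j hxy] at hx
        exact absurd hy hx
    · rw [hinr, not_not] at hx
      rcases y with y | j
      · rw [hinl, hf3 y i hxy] at hy
        exact absurd hx hy
      · rfl
  · intro c hc
    rcases Nat.lt_succ_iff_lt_or_eq.1 hc with hc | rfl
    · obtain ⟨x, hx, hxc⟩ := hlabs c hc
      have hne : x ≠ w₀ := fun h => hx (by rw [h]; exact hw₀M)
      refine ⟨f (Sum.inl ⟨x, hne⟩), fun h => hx ((hinl ⟨x, hne⟩).1 h), ?_⟩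
      simp [hxc]
    · refine ⟨f (Sum.inr i₀), fun h => (hinr i₀).1 h hi₀, ?_⟩
      simp
  · rintro _ ⟨_, ⟨x, hx, rfl⟩, rfl⟩
    have hsub : {y | D'.Adj (f (Sum.inl x)) y ∧ y ∉ f ''
        (Sum.inl '' {x : {w : D.W // w ≠ w₀} | x.1 ∈ M} ∪
          Sum.inr '' {i : D.T w₀ | D.nb w₀ i ∉ M})} ⊆
        f '' (Sum.inl '' {z : {w : D.W // w ≠ w₀} | z.1 ∈ {y | D.Adj x.1 y ∧ y ∉ M}}) ∪
        f '' (Sum.inr '' {i : D.T w₀ | D.nb w₀ i = x.1}) := by
      rintro y ⟨hy1, hy2⟩
      obtain ⟨y, rfl⟩ := f.surjective y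
      rcases y with y | j
      · left
        exact ⟨_, ⟨y, ⟨hf1 x y hy1, fun h => hy2 ((hinl y).2 h)⟩, rfl⟩, rfl⟩
      · right
        exact ⟨_, ⟨j, (hf2 x j hy1).symm, rfl⟩, rfl⟩
    refine (Set.ncard_le_ncard hsub (Set.toFinite _)).trans ?_
    refine (Set.ncard_union_le _ _).trans ?_
    rw [Set.ncard_image_of_injective _ f.injective,
      Set.ncard_image_of_injective _ Sum.inl_injective, hval,
      Set.ncard_image_of_injective _ f.injective,
      Set.ncard_image_of_injective _ Sum.inr_injective]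
    refine Nat.add_le_add ?_ ?_
    · exact (Set.ncard_le_ncard Set.sdiff_subset (Set.toFinite _)).trans (hout x.1 hx)
    · rw [Set.ncard_le_one_iff (Set.toFinite _)]
      intro i j hi hj
      exact hinj ((show D.nb w₀ i = x.1 from hi).trans (show D.nb w₀ j = x.1 from hj).symm)

end Pool.Agent.Helper13.TSL
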