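import Mathlib
import Pool.Agent.Helper13.TSL.T3
import Pool.Agent.Helper13.TSL.T4
import Pool.Agent.Helper13.TSL.T5

/-!
# TSL-T6: the first lower bound
-/

namespace Pool.Agent.Helper13.TSL

open Set Pool.Agent.Helper70.Poly Pool.Agent.Helper26.PolySep

/-- `q` times step two, starting after step one: `n` grows by `0 + 1 + ... + (q - 1)`. -/
theorem St.iter {d n k : ℕ} (q : ℕ) (hq : q < d) (hn : 1 ≤ n)
    (h : St d n k d 1) : St d (n + q * (q - 1) / 2) (k + q) (d - q) (q + 1) := by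
  induction q with
  | zero => simpa using h
  | succ q ih =>
    have h1 := ih (by omega)
    have e1 : d - q = (d - (q + 1)) + 1 := by omega
    rw [e1] at h1
    have h2 := St.two hq h1
    have e2 : n + q * (q - 1) / 2 - 1 + (q + 1) = n + (q + 1) * (q + 1 - 1) / 2 := by
      have e3 : (q + 1) * (q + 1 - 1) / 2 = q * (q - 1) / 2 + q := by
        have e4 : (q + 1) * (q + 1 - 1) = q * (q - 1) + q * 2 := by
          rcases Nat.eq_zero_or_pos q with h0 | h0
          · subst h0
            rfl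
          · obtain ⟨p, rfl⟩ : ∃ p, q = p + 1 := ⟨q - 1, by omega⟩
            simp only [Nat.add_sub_cancel]
            ring
        rw [e4, Nat.add_mul_div_right _ _ (by norm_num)]
      rw [e3]
      omega
    rw [e2] at h2
    exact h2

/-- `m` rounds, each of them step one and `q` times step two. -/
theorem St.rounds {d : ℕ} (q : ℕ) (hq : q < d) (m : ℕ) :
    ∃ a r, St d (1 + m * (d - 1 + q * (q - 1) / 2)) (1 + m * q) a r := by
  induction m with
  | zero => exact ⟨0, 0, by simpa using st_init (d := d) (by omega)⟩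
  | succ m ih =>
    obtain ⟨a, r, h⟩ := ih
    have h1 := St.one (by omega) h
    have h2 := St.iter q hq (by omega) h1
    refine ⟨d - q, q + 1, ?_⟩
    have e1 : 1 + (m + 1) * (d - 1 + q * (q - 1) / 2) =
        1 + m * (d - 1 + q * (q - 1) / 2) - 1 + d + q * (q - 1) / 2 := by
      rw [Nat.add_mul, Nat.one_mul]
      omega
    have e2 : 1 + (m + 1) * q = 1 + m * q + q := by ring
    rw [e1, e2]
    exact h2

private theorem T6_core {d n q : ℕ} (hd : 2 ≤ d) (hn : 2 * d - 1 ≤ n) (hq : q < d) (hq1 : 1 ≤ q)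
    (hqd : q * (q - 1) / 2 ≤ d - 1) :
    1 + (n - 1) / (2 * (d - 1)) * q ∈ sepCards n d ∧ 1 ≤ (n - 1) / (2 * (d - 1)) ∧
      n ≤ 4 * (d - 1) * ((n - 1) / (2 * (d - 1))) := by
  set m := (n - 1) / (2 * (d - 1)) with hm
  have hd2 : 0 < 2 * (d - 1) := by omega
  have hm1 : 1 ≤ m := by
    rw [hm, Nat.le_div_iff_mul_le hd2]
    omega
  have hlt : n - 1 < 2 * (d - 1) * (m + 1) := by
    have := Nat.lt_mul_div_succ (n - 1) hd2
    simpa [hm] using this
  have hle : m * (2 * (d - 1)) ≤ n - 1 := Nat.div_mul_le_self _ _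
  refine ⟨?_, hm1, ?_⟩
  · obtain ⟨a, r, h⟩ := St.rounds q hq m
    refine Pd.mem_sepCards (Pd.mono hd (by omega) ?_ (St.pd hd (by omega) h))
    have h1 : m * (d - 1 + q * (q - 1) / 2) ≤ m * (2 * (d - 1)) :=
      Nat.mul_le_mul_left m (by omega)
    omega
  · have h1 : 2 * (d - 1) * (m + 1) ≤ 4 * (d - 1) * m := by
      have : 2 * (d - 1) * 1 ≤ 2 * (d - 1) * m := Nat.mul_le_mul_left _ hm1
      nlinarith
    omega

/-- **First lower bound.**  For `d ≥ 3` the number `q = ⌊√d⌋ + 1` satisfies `q < d`, `√d < q` and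
`q (q - 1) / 2 ≤ d - 1`; for `d = 2` take `q = 1`.  With `m = (n - 1) / (2 (d - 1)) ≥ 1` rounds and padding we get `k = 1 + m q` and
`n - 1 < 2 (d - 1) (m + 1) ≤ 4 (d - 1) m`, so `n ≤ 4 √d k`. -/
theorem lower_one {d n : ℕ} (hd : 2 ≤ d) (hn : 2 * d - 1 ≤ n) :
    ∃ k ∈ sepCards n d, 2 ≤ k ∧ (n : ℝ) ≤ 4 * √(d : ℝ) * k := by
  have hd0 : (0 : ℝ) < d := by
    have : 0 < d := by omega
    exact_mod_cast this
  have hs0 : 0 < √(d : ℝ) := Real.sqrt_pos.2 hd0
  have hs2 : √(d : ℝ) * √(d : ℝ) = d := Real.mul_self_sqrt hd0.le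
  rcases eq_or_lt_of_le hd with h2 | h3
  · subst h2
    obtain ⟨h, hm1, hle⟩ := T6_core (q := 1) le_rfl hn (by norm_num) le_rfl (by norm_num)
    refine ⟨_, h, by omega, ?_⟩
    set m := (n - 1) / (2 * (2 - 1)) with hm
    have h1 : (n : ℝ) ≤ 4 * m := by
      have : n ≤ 4 * m := by omega
      exact_mod_cast this
    have h4 : (1 : ℝ) ≤ √((2 : ℕ) : ℝ) := by
      rw [Real.one_le_sqrt]
      norm_num
    have h5 : (0 : ℝ) ≤ m := Nat.cast_nonneg m
    push_cast at h4 ⊢
    nlinarith [mul_nonneg (sub_nonneg.2 h4) h5]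
  · set s := Nat.sqrt d with hs
    have hs1 : s * s ≤ d := Nat.sqrt_le d
    have hs3 : d < (s + 1) * (s + 1) := Nat.lt_succ_sqrt d
    have hs4 : 1 ≤ s := by
      by_contra hc
      have : s = 0 := by omega
      rw [this] at hs3
      omega
    have hq : s + 1 < d := by
      rcases eq_or_lt_of_le hs4 with h | h
      · omega
      · nlinarith
    have hqd : (s + 1) * (s + 1 - 1) / 2 ≤ d - 1 := by
      rcases eq_or_lt_of_le hs4 with h | h
      · rw [← h]
        omega
      · rw [Nat.add_sub_cancel]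
        have h4 : (s + 1) * s ≤ 2 * (d - 1) := by
          have : (s + 1) * s + 2 ≤ 2 * d := by nlinarith
          omega
        omega
    obtain ⟨h, hm1, hle⟩ := T6_core (q := s + 1) hd hn hq (by omega) hqd
    set m := (n - 1) / (2 * (d - 1)) with hm
    refine ⟨_, h, ?_, ?_⟩
    · have : 1 * 1 ≤ m * (s + 1) := Nat.mul_le_mul hm1 (by omega)
      omega
    · have h1 : (n : ℝ) ≤ 4 * (d - 1) * m := by
        have h6 : (n : ℝ) ≤ ((4 * (d - 1) * m : ℕ) : ℝ) := by exact_mod_cast hle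
        have h7 : ((d - 1 : ℕ) : ℝ) = (d : ℝ) - 1 := by
          rw [Nat.cast_sub (by omega)]
          norm_num
        push_cast at h6
        rw [h7] at h6
        exact h6
      have h5 : (0 : ℝ) ≤ m := Nat.cast_nonneg m
      have h8 : √(d : ℝ) ≤ (s : ℝ) + 1 := by
        apply Real.sqrt_le_iff.2
        constructor
        · positivity
        · have : ((d : ℕ) : ℝ) ≤ (((s + 1) * (s + 1) : ℕ) : ℝ) := by exact_mod_cast hs3.le
          push_cast at this
          nlinarith
      push_cast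
      have h9 : √(d : ℝ) * m ≤ ((s : ℝ) + 1) * m := mul_le_mul_of_nonneg_right h8 h5
      calc (n : ℝ) ≤ 4 * (d - 1) * m := h1
        _ ≤ 4 * d * m := by nlinarith
        _ = 4 * √(d : ℝ) * (√(d : ℝ) * m) := by linear_combination (-(4 * (m : ℝ))) * hs2
        _ ≤ 4 * √(d : ℝ) * (((s : ℝ) + 1) * m) := by
            apply mul_le_mul_of_nonneg_left h9
            positivity
        _ ≤ 4 * √(d : ℝ) * (1 + m * ((s : ℝ) + 1)) := by
            apply mul_le_mul_of_nonneg_left _ (by positivity)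
            linarith

end Pool.Agent.Helper13.TSL
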