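import Mathlib
import Pool.Agent.Helper13.TSL.T6
import Pool.Agent.Helper13.TSL.P3
import Pool.Agent.Helper13.TSL.R1

/-!
# TSL-R2: closed form of the lower bounds
-/

namespace Pool.Agent.Helper13.TSL

open Set Pool.Agent.Helper70.Poly Pool.Agent.Helper26.PolySep

/-- **Closed form.**  For `log n < √d` use `lower_one`; for `d < 400` use `lower_one` and
`4 √d < 80`; otherwise `exists_s` with `l = log n` and `lower_two`:
`n ≤ (3 / 2) (s + 1) k ≤ 12 (d / l) (1 + log (d / l)) k`.  Write `x = log n / d`. -/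
theorem lower_closed {d n : ℕ} (hd : 2 ≤ d) (hn : 2 * d - 1 ≤ n) (hl : Real.log n ≤ d) :
    ∃ k ∈ sepCards n d, (n : ℝ) * (Real.log n / d) ≤
      80 * (1 + Real.log (d / Real.log n)) * k := by
  have hd0 : (0 : ℝ) < d := by
    have : 0 < d := by omega
    exact_mod_cast this
  have hn3 : 3 ≤ n := by omega
  have hn0 : (0 : ℝ) < n := by
    have : 0 < n := by omega
    exact_mod_cast this
  have hn1 : (1 : ℝ) < n := by
    have : 1 < n := by omega
    exact_mod_cast this
  set l : ℝ := Real.log n with hl'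
  have hl0 : 0 < l := Real.log_pos hn1
  have hdl : 1 ≤ (d : ℝ) / l := by rw [le_div_iff₀ hl0]; linarith
  have hlog : 0 ≤ Real.log (d / l) := Real.log_nonneg hdl
  have hs0 : 0 < √(d : ℝ) := Real.sqrt_pos.2 hd0
  have hs2 : √(d : ℝ) * √(d : ℝ) = d := Real.mul_self_sqrt hd0.le
  have hfin : ∀ k : ℕ, (n : ℝ) * (l / d) ≤ 80 * (k : ℝ) →
      (n : ℝ) * (l / d) ≤ 80 * (1 + Real.log (d / l)) * k := by
    intro k hk
    have hk0 : (0 : ℝ) ≤ k := Nat.cast_nonneg k
    have : 0 ≤ Real.log (d / l) * k := mul_nonneg hlog hk0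
    nlinarith
  rcases lt_or_ge l (√(d : ℝ)) with hlt | hge
  · obtain ⟨k, hk, _, hle⟩ := lower_one hd hn
    refine ⟨k, hk, hfin k ?_⟩
    have hk0 : (0 : ℝ) ≤ k := Nat.cast_nonneg k
    have h1 : √(d : ℝ) * l ≤ d := by nlinarith
    have h2 : (n : ℝ) * l ≤ 4 * √(d : ℝ) * k * l := mul_le_mul_of_nonneg_right hle hl0.le
    have h3 : k * (√(d : ℝ) * l) ≤ k * d := mul_le_mul_of_nonneg_left h1 hk0
    rw [← mul_div_assoc, div_le_iff₀ hd0]
    nlinarith [mul_nonneg hk0 hd0.le]
  · rcases lt_or_ge d 400 with hdl4 | hd4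
    · obtain ⟨k, hk, _, hle⟩ := lower_one hd hn
      refine ⟨k, hk, hfin k ?_⟩
      have hk0 : (0 : ℝ) ≤ k := Nat.cast_nonneg k
      have hd4' : (d : ℝ) ≤ 400 := by exact_mod_cast hdl4.le
      have h20 : √(d : ℝ) ≤ 20 := by
        rw [Real.sqrt_le_iff]
        exact ⟨by norm_num, by linarith⟩
      have h1 : l / d ≤ 1 := by rw [div_le_one hd0]; exact hl
      have h2 : (n : ℝ) * (l / d) ≤ n * 1 := mul_le_mul_of_nonneg_left h1 hn0.le
      have h3 : √(d : ℝ) * k ≤ 20 * k := mul_le_mul_of_nonneg_right h20 hk0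
      nlinarith
    · obtain ⟨s, hs, h1, h2⟩ := exists_s hd4 hge hl
      have hsR : (0 : ℝ) < (s : ℝ) + 1 := by positivity
      have hpow : 3 * (s + 1) ^ ((d - 2) / s + 1) ≤ n := by
        have h3 : Real.log (3 * ((s : ℝ) + 1) ^ ((d - 2) / s + 1)) ≤ Real.log n := by
          rw [Real.log_mul (by norm_num) (by positivity), Real.log_pow]
          linarith
        have h4 : (3 * ((s : ℝ) + 1) ^ ((d - 2) / s + 1)) ≤ n :=
          (Real.log_le_log_iff (by positivity) hn0).1 h3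
        exact_mod_cast h4
      obtain ⟨k, hk, h5⟩ := lower_two hd hs hpow
      refine ⟨k, hk, ?_⟩
      have hk0 : (0 : ℝ) ≤ k := Nat.cast_nonneg k
      have h6 : 2 * (n : ℝ) ≤ 3 * ((s : ℝ) + 1) * k := by exact_mod_cast h5
      have h7 : (3 * ((s : ℝ) + 1) * k) ≤
          3 * (8 * ((d : ℝ) / l) * (1 + Real.log (d / l))) * k := by
        have : ((s : ℝ) + 1) * k ≤ (8 * ((d : ℝ) / l) * (1 + Real.log (d / l))) * k :=
          mul_le_mul_of_nonneg_right h2 hk0
        linarith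
      have h8 : (0 : ℝ) ≤ l / d := by positivity
      have h9 : 2 * (n : ℝ) * (l / d) ≤
          3 * (8 * ((d : ℝ) / l) * (1 + Real.log (d / l))) * k * (l / d) :=
        mul_le_mul_of_nonneg_right (h6.trans h7) h8
      have h10 : 3 * (8 * ((d : ℝ) / l) * (1 + Real.log (d / l))) * k * (l / d) =
          24 * ((1 + Real.log (d / l)) * k) := by
        have hdne : (d : ℝ) ≠ 0 := hd0.ne'
        have hlne : l ≠ 0 := hl0.ne'
        field_simp
        ring
      rw [h10] at h9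
      have h11 : 0 ≤ (1 + Real.log (d / l)) * k := mul_nonneg (by linarith) hk0
      nlinarith

end Pool.Agent.Helper13.TSL
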