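import Mathlib
import Pool.Agent.Helper13.TSD.EC2
import Pool.Agent.Helper13.TSL.R2

/-!
# Assembly of the bounds on the degree of total separability
-/

namespace Pool.Agent.Helper13.TSL

open Filter Topology Pool.Agent.Helper70.Poly

/-- The maximum exists. -/
theorem exists_isGreatest {d n : ℕ} (hd : 2 ≤ d) (hn : 2 * d - 1 ≤ n) :
    ∃ s, IsGreatest (sepCards n d) s := by
  obtain ⟨k, hk, -, -⟩ := lower_one hd hn
  have hb : ∀ m ∈ sepCards n d, m ≤ n := fun m hm => sepCards_le (by omega) (by omega) hm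
  obtain ⟨s, hs⟩ := (Set.finite_Iic n).subset (fun m hm => hb m hm : sepCards n d ⊆ Set.Iic n) |>.exists_maximalFor
    id _ ⟨k, hk⟩
  refine ⟨s, hs.1, fun m hm => ?_⟩
  by_contra hlt
  push Not at hlt
  have := hs.2 hm hlt.le
  exact absurd this (by simpa using hlt)

/-- The bounds for the maximum. -/
theorem bounds {d n s : ℕ} (hd : 2 ≤ d) (hn : 2 * d - 1 ≤ n)
    (hs : IsGreatest (sepCards n d) s) :
    (n : ℝ) / (4 * √(d : ℝ)) ≤ s ∧
      (Real.log n ≤ d → (n : ℝ) * (Real.log n / d) ≤
        80 * (1 + Real.log (d / Real.log n)) * s) ∧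
      (s : ℝ) ≤ 30 * n * (1 / √(d : ℝ) + Real.log n / d) := by
  obtain ⟨k, hk, hk2, hkn⟩ := lower_one hd hn
  have hks : (k : ℝ) ≤ s := by exact_mod_cast hs.2 hk
  have hd0 : (0 : ℝ) < d := by exact_mod_cast (by omega : 0 < d)
  have hsd : 0 < √(d : ℝ) := Real.sqrt_pos.mpr hd0
  refine ⟨?_, fun hl => ?_, ?_⟩
  · rw [div_le_iff₀ (by positivity)]
    calc (n : ℝ) ≤ 4 * √(d : ℝ) * k := hkn
      _ ≤ 4 * √(d : ℝ) * s := by gcongr
      _ = s * (4 * √(d : ℝ)) := by ring
  · obtain ⟨k', hk', hkn'⟩ := lower_closed hd hn hl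
    have hks' : (k' : ℝ) ≤ s := by exact_mod_cast hs.2 hk'
    have hn3 : (3 : ℝ) ≤ n := by exact_mod_cast (by omega : 3 ≤ n)
    have hlog : 0 < Real.log n := Real.log_pos (by linarith)
    have h1 : 0 ≤ Real.log (d / Real.log n) := Real.log_nonneg (by
      rw [le_div_iff₀ hlog]
      linarith)
    refine hkn'.trans ?_
    gcongr
  · have h2 : 2 ≤ s := hk2.trans (hs.2 hk)
    have := Pool.Agent.Helper13.TSD.sepCards_bound h2 hs.1
    simpa [Pool.Agent.Helper13.TSD.bd] using this

/-- For `log n > d` at least a sixth of the bound `n` is attained. -/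
theorem large {d n s : ℕ} (hd : 2 ≤ d) (hn : 2 * d - 1 ≤ n)
    (hs : IsGreatest (sepCards n d) s) (hl : (d : ℝ) < Real.log n) : (n : ℝ) / 6 ≤ s := by
  have hn3 : (3 : ℝ) ≤ n := by exact_mod_cast (by omega : 3 ≤ n)
  rcases Nat.lt_or_ge d 3 with h2 | h3
  · have h2' : d = 2 := by omega
    have h1 := (bounds hd hn hs).1
    have h2'' : (d : ℝ) = 2 := by exact_mod_cast h2'
    rw [h2''] at h1
    have h5 : √(2 : ℝ) ≤ 3 / 2 := by
      rw [Real.sqrt_le_left (by norm_num)]
      norm_num
    have h6 : 0 < √(2 : ℝ) := Real.sqrt_pos.mpr (by norm_num)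
    refine le_trans ?_ h1
    gcongr
    linarith
  · have hpow : 3 * (2 + 1) ^ ((d - 2) / 2 + 1) ≤ n := by
      have h4 : ((3 * (2 + 1) ^ ((d - 2) / 2 + 1) : ℕ) : ℝ) ≤ n := by
        have hcast : ((3 * (2 + 1) ^ ((d - 2) / 2 + 1) : ℕ) : ℝ) =
            3 * (3 : ℝ) ^ ((d - 2) / 2 + 1) := by
          push_cast
          norm_num
        rw [hcast, ← Real.log_le_log_iff (by positivity) (by linarith)]
        rw [Real.log_mul (by norm_num) (by positivity), Real.log_pow]
        refine le_trans ?_ hl.le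
        have h3l : Real.log 3 ≤ 1.1 := by
          have := Real.log_three_lt_d9
          linarith
        have h3l0 : 0 ≤ Real.log 3 := Real.log_nonneg (by norm_num)
        have hq : (((d - 2) / 2 + 1 : ℕ) : ℝ) ≤ (d : ℝ) / 2 := by
          rw [le_div_iff₀ (by norm_num)]
          have : ((d - 2) / 2 + 1) * 2 ≤ d := by omega
          exact_mod_cast this
        have hd3 : (3 : ℝ) ≤ d := by exact_mod_cast h3
        have h7 : (((d - 2) / 2 + 1 : ℕ) : ℝ) * Real.log 3 ≤ (d : ℝ) / 2 * 1.1 := by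
          gcongr
        nlinarith
      exact_mod_cast h4
    obtain ⟨k, hk, hkn⟩ := lower_two hd le_rfl hpow
    have hks : (k : ℝ) ≤ s := by exact_mod_cast hs.2 hk
    have h8 : (2 : ℝ) * n ≤ 3 * (2 + 1) * k := by exact_mod_cast hkn
    linarith

/-- The threshold: the proportion `s(n, 𝒮^d) / n` tends to zero if and only if `log n / d`
does. -/
theorem tendsto_iff {d n s : ℕ → ℕ} (hd : ∀ i, 2 ≤ d i) (hn : ∀ i, 2 * d i - 1 ≤ n i)
    (hs : ∀ i, IsGreatest (sepCards (n i) (d i)) (s i)) :
    Tendsto (fun i => (s i : ℝ) / n i) atTop (𝓝 0) ↔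
      Tendsto (fun i => Real.log (n i) / d i) atTop (𝓝 0) := by
  have hn3 : ∀ i, (3 : ℝ) ≤ n i := fun i => by
    have h1 := hd i
    have h2 := hn i
    exact_mod_cast (by omega : 3 ≤ n i)
  have hd0 : ∀ i, (0 : ℝ) < d i := fun i => by
    have h1 := hd i
    exact_mod_cast (by omega : 0 < d i)
  have hlog1 : ∀ i, 1 ≤ Real.log (n i) := fun i => by
    rw [Real.le_log_iff_exp_le (by linarith [hn3 i])]
    have := Real.exp_one_lt_d9
    linarith [hn3 i]
  have hx0 : ∀ i, 0 < Real.log (n i) / d i := fun i => div_pos (by linarith [hlog1 i]) (hd0 i)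
  constructor
  · intro h
    rw [Metric.tendsto_atTop] at h ⊢
    intro ε' hε'
    set ε := min ε' 1 with hε
    have hε0 : 0 < ε := lt_min hε' one_pos
    have hε1 : ε ≤ 1 := min_le_right _ _
    have hlogε : 0 ≤ Real.log (1 / ε) := Real.log_nonneg (by
      rw [le_div_iff₀ hε0]
      linarith)
    set δ := min (ε / (80 * (1 + Real.log (1 / ε)))) (1 / 6) with hδ
    have hδ0 : 0 < δ := lt_min (div_pos hε0 (by positivity)) (by norm_num)
    obtain ⟨N, hN⟩ := h δ hδ0
    refine ⟨N, fun i hi => ?_⟩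
    have h1 := hN i hi
    rw [Real.dist_eq, sub_zero, abs_of_nonneg (by positivity)] at h1
    rw [Real.dist_eq, sub_zero, abs_of_pos (hx0 i)]
    refine lt_of_lt_of_le ?_ (min_le_left ε' 1)
    rw [← hε]
    by_contra hcon
    push Not at hcon
    have hnp : (0 : ℝ) < n i := by linarith [hn3 i]
    rcases le_or_gt (Real.log (n i)) (d i) with hle | hgt
    · have h2 := (bounds (hd i) (hn i) (hs i)).2.1 hle
      set x := Real.log (n i) / d i with hx
      have hxinv : (d i : ℝ) / Real.log (n i) = 1 / x := by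
        rw [hx, one_div_div]
      rw [hxinv] at h2
      have hxp : 0 < x := hx0 i
      have hx1 : x ≤ 1 := by
        rw [hx, div_le_one (hd0 i)]
        exact hle
      have h3 : Real.log (1 / x) ≤ Real.log (1 / ε) := by
        apply Real.log_le_log (by positivity)
        exact one_div_le_one_div_of_le hε0 hcon
      have h3' : 0 ≤ Real.log (1 / x) := Real.log_nonneg (by
        rw [le_div_iff₀ hxp]
        linarith)
      have h4 : ε / (80 * (1 + Real.log (1 / ε))) ≤ (s i : ℝ) / n i := by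
        rw [div_le_div_iff₀ (by positivity) hnp]
        have h5 : (s i : ℝ) * (80 * (1 + Real.log (1 / x))) ≤
            (s i : ℝ) * (80 * (1 + Real.log (1 / ε))) := by gcongr
        have h6 : ε * n i ≤ n i * x := by
          rw [mul_comm]
          gcongr
        calc ε * n i ≤ n i * x := h6
          _ ≤ 80 * (1 + Real.log (1 / x)) * s i := h2
          _ = (s i : ℝ) * (80 * (1 + Real.log (1 / x))) := by ring
          _ ≤ _ := h5
      exact absurd (h1.trans_le (min_le_left _ _)) (not_lt.mpr h4)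
    · have h2 := large (hd i) (hn i) (hs i) hgt
      have h4 : (1 : ℝ) / 6 ≤ (s i : ℝ) / n i := by
        rw [div_le_div_iff₀ (by norm_num) hnp]
        linarith
      exact absurd (h1.trans_le (min_le_right _ _)) (not_lt.mpr h4)
  · intro h
    have hsq : Tendsto (fun i => 1 / √(d i : ℝ)) atTop (𝓝 0) := by
      have h1 : Tendsto (fun i => √(Real.log (n i) / d i)) atTop (𝓝 0) := by
        have := (Real.continuous_sqrt.tendsto 0).comp h
        rw [Real.sqrt_zero] at this
        exact this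
      refine squeeze_zero (fun i => by positivity) (fun i => ?_) h1
      rw [← Real.sqrt_one, ← Real.sqrt_div' _ (hd0 i).le]
      apply Real.sqrt_le_sqrt
      gcongr
      exact hlog1 i
    have hup : Tendsto (fun i => 30 * (1 / √(d i : ℝ) + Real.log (n i) / d i)) atTop (𝓝 0) := by
      have := (hsq.add h).const_mul 30
      simpa using this
    refine squeeze_zero (fun i => by positivity) (fun i => ?_) hup
    have h2 := (bounds (hd i) (hn i) (hs i)).2.2
    have hnp : (0 : ℝ) < n i := by linarith [hn3 i]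
    rw [div_le_iff₀ hnp]
    calc (s i : ℝ) ≤ 30 * n i * (1 / √(d i : ℝ) + Real.log (n i) / d i) := h2
      _ = _ := by ring

end Pool.Agent.Helper13.TSL
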